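import Mathlib

/-!
# The first uncountable ordinal as a type
-/

set_option linter.unusedSectionVars false
set_option linter.unusedVariables false
set_option linter.unusedSimpArgs false

open Set Cardinal

namespace Pool.Agent.Lib.MP_e6371f_lc

/-- the first uncountable ordinal -/
def W : Type := (ℵ₁ : Cardinal.{0}).ord.ToType

noncomputable instance : LinearOrder W := inferInstanceAs (LinearOrder (ℵ₁ : Cardinal.{0}).ord.ToType)

instance : WellFoundedLT W := inferInstanceAs (WellFoundedLT (ℵ₁ : Cardinal.{0}).ord.ToType)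

theorem W_card : #W = ℵ₁ := mk_ord_toType _

theorem W_cnt (w : W) : (Iio w).Countable := by
  rw [← le_aleph0_iff_set_countable]
  have h := mk_Iio_toType_ord_lt (c := (ℵ₁ : Cardinal.{0})) w
  rwa [← Order.lt_succ_iff, succ_aleph0]

theorem W_unc : ¬ (univ : Set W).Countable := by
  rw [← le_aleph0_iff_set_countable, mk_univ, W_card, not_le]
  exact aleph0_lt_aleph_one

theorem W_bdd {S : Set W} (hS : S.Countable) : ∃ v, ∀ w ∈ S, w < v := by
  by_contra hc
  push Not at hc
  refine W_unc ((hS.biUnion fun w _ => ((W_cnt w).insert w)).mono fun v _ => ?_)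
  obtain ⟨w, hw, h⟩ := hc v
  simp only [mem_iUnion, mem_insert_iff, mem_Iio, exists_prop]
  exact ⟨w, hw, h.eq_or_lt⟩

theorem exists_gt' (w : W) : ∃ v, w < v := by
  obtain ⟨v, hv⟩ := W_bdd (countable_singleton w)
  exact ⟨v, hv w rfl⟩

/-- the least element -/
noncomputable def b0 : W :=
  (wellFounded_lt (α := W)).min univ (by
    by_contra h
    rw [not_nonempty_iff_eq_empty] at h
    exact W_unc (by rw [h]; exact countable_empty))

theorem b0_le (w : W) : b0 ≤ w := by
  by_contra h
  exact (wellFounded_lt (α := W)).not_lt_min univ (mem_univ w) (not_le.1 h)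

theorem not_lt_b0 (w : W) : ¬ w < b0 := not_lt.2 (b0_le w)

/-- the next element -/
noncomputable def nx (w : W) : W := (wellFounded_lt (α := W)).min {v | w < v} (exists_gt' w)

theorem lt_nx (w : W) : w < nx w := (wellFounded_lt (α := W)).min_mem {v | w < v} (exists_gt' w)

theorem nx_le {w v : W} (h : w < v) : nx w ≤ v := by
  by_contra hc
  exact (wellFounded_lt (α := W)).not_lt_min {v | w < v} h (not_le.1 hc)

theorem lt_nx_iff {w v : W} : v < nx w ↔ v ≤ w := by
  constructor
  · intro h
    by_contra hc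
    exact absurd (nx_le (not_le.1 hc)) (not_le.2 h)
  · exact fun h => h.trans_lt (lt_nx w)

theorem nx_ne (w : W) : nx w ≠ b0 := fun h => not_lt_b0 w (by rw [← h]; exact lt_nx w)

theorem exists_sup (f : ℕ → W) : ∃ s, (∀ n, f n ≤ s) ∧ ∀ i < s, ∃ n, i < f n := by
  obtain ⟨v, hv⟩ := W_bdd (countable_range f)
  have hne : {v | ∀ n, f n ≤ v}.Nonempty := ⟨v, fun n => (hv _ (mem_range_self n)).le⟩
  refine ⟨(wellFounded_lt (α := W)).min {v | ∀ n, f n ≤ v} hne,
    (wellFounded_lt (α := W)).min_mem {v | ∀ n, f n ≤ v} hne, fun i hi => ?_⟩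
  by_contra hc
  push Not at hc
  exact (wellFounded_lt (α := W)).not_lt_min {v | ∀ n, f n ≤ v} (x := i) hc hi

/-- the `n`-th successor -/
noncomputable def nxn (n : ℕ) (w : W) : W := nx^[n] w

theorem nxn_succ (n : ℕ) (w : W) : nxn (n + 1) w = nx (nxn n w) := Function.iterate_succ_apply' _ _ _

theorem nxn_zero (w : W) : nxn 0 w = w := rfl

theorem le_nxn (n : ℕ) (w : W) : w ≤ nxn n w := by
  induction n with
  | zero => exact le_rfl
  | succ n ih => rw [nxn_succ]; exact ih.trans (lt_nx _).le

theorem nxn_lt {m n : ℕ} (h : m < n) (w : W) : nxn m w < nxn n w := by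
  induction n, h using Nat.le_induction with
  | base => rw [nxn_succ]; exact lt_nx _
  | succ n _ ih => rw [nxn_succ]; exact ih.trans (lt_nx _)

end Pool.Agent.Lib.MP_e6371f_lc
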