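import Mathlib

set_option autoImplicit false

open Cardinal Set Topology

universe u

namespace Pool.Agent.Lib.MP_e6371f_lc

/-- The set of all functions `κ → κ`; here `κ.ord.ToType` is the well-ordered set of all ordinals
below `κ`. -/
abbrev Pt (κ : Cardinal.{u}) : Type u := κ.ord.ToType → κ.ord.ToType

variable {κ : Cardinal.{u}}

/-- `x` and `y` have the same restriction to the ordinals below `a`. -/
def Agree (a : κ.ord.ToType) (x y : Pt κ) : Prop := ∀ b < a, x b = y b

/-- The bounded topology: it is generated by the sets of all functions extending a given function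
defined on an initial segment `{b | b < a}`. -/
@[reducible] def boundedTop (κ : Cardinal.{u}) : TopologicalSpace (Pt κ) :=
  TopologicalSpace.generateFrom {U | ∃ (a : κ.ord.ToType) (x : Pt κ), U = {y | Agree a y x}}

/-- The position `x_n` after round `n` when Player II follows `σ` and Player I plays
`α_{i+1} = a i`: `x_0` is given and `x_n = σ [α_1, …, α_n]` for `n ≥ 1`. -/
def pos (x₀ : Pt κ) (σ : List κ.ord.ToType → Pt κ) (a : ℕ → κ.ord.ToType) : ℕ → Pt κ
  | 0 => x₀
  | n + 1 => σ ((List.range (n + 1)).map a)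

/-- Player II has a winning strategy in the game `G_κ(E, x₀, ω + 1)`. In round `n ≥ 1` he answers
`σ [α_1, …, α_n]`, in round `ω` he answers `τ (α_1, α_2, …)` (Player I's move `α_ω` is forced); all
answers have to be in `E`, different from all earlier positions, and `x_ξ` has to agree with
`x_η` below `α_{η+1}` for all `η < ξ`. -/
def WinsII (E : Set (Pt κ)) (x₀ : Pt κ) : Prop :=
  ∃ (σ : List κ.ord.ToType → Pt κ) (τ : (ℕ → κ.ord.ToType) → Pt κ),
    ∀ a : ℕ → κ.ord.ToType, StrictMono a →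
      (∀ n, 1 ≤ n → pos x₀ σ a n ∈ E ∧
        ∀ i < n, pos x₀ σ a n ≠ pos x₀ σ a i ∧ Agree (a i) (pos x₀ σ a n) (pos x₀ σ a i)) ∧
      τ a ∈ E ∧ ∀ i, τ a ≠ pos x₀ σ a i ∧ Agree (a i) (τ a) (pos x₀ σ a i)

/-- `E` is `(ω + 1)`-perfect. -/
def OmegaOnePerfect (E : Set (Pt κ)) : Prop :=
  IsClosed[boundedTop κ] E ∧ ∀ x₀ ∈ E, WinsII E x₀

/-- `E` is a continuous image of the whole space. -/
def IsContinuousImage (E : Set (Pt κ)) : Prop :=
  ∃ f : Pt κ → Pt κ, Continuous[boundedTop κ, boundedTop κ] f ∧ Set.range f = E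

/-- There is `X ⊆ E` with `|X| ≤ κ^{<κ}` such that `E \ X` is `(ω + 1)`-perfect. -/
def Removable (E : Set (Pt κ)) : Prop :=
  ∃ X ⊆ E, #X ≤ κ ^< κ ∧ OmegaOnePerfect (E \ X)

/-! ### Basic facts on the topology -/

theorem Agree.symm {a : κ.ord.ToType} {x y : Pt κ} (h : Agree a x y) : Agree a y x :=
  fun b hb => (h b hb).symm

theorem Agree.trans {a : κ.ord.ToType} {x y z : Pt κ} (h : Agree a x y) (h' : Agree a y z) :
    Agree a x z := fun b hb => (h b hb).trans (h' b hb)

theorem Agree.mono {a b : κ.ord.ToType} {x y : Pt κ} (h : Agree a x y) (hb : b ≤ a) :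
    Agree b x y := fun c hc => h c (lt_of_lt_of_le hc hb)

theorem isOpen_iff [Nonempty κ.ord.ToType] (U : Set (Pt κ)) :
    IsOpen[boundedTop κ] U ↔ ∀ x ∈ U, ∃ a, ∀ y, Agree a y x → y ∈ U := by
  constructor
  · intro h
    induction h with
    | basic U hU =>
      obtain ⟨a, x, rfl⟩ := hU
      intro z hz
      exact ⟨a, fun y hy => hy.trans hz⟩
    | univ =>
      intro x _
      exact ⟨Classical.arbitrary _, fun y _ => trivial⟩
    | inter U V _ _ hU hV =>
      intro x hx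
      obtain ⟨a, ha⟩ := hU x hx.1
      obtain ⟨b, hb⟩ := hV x hx.2
      exact ⟨max a b, fun y hy => ⟨ha y (hy.mono (le_max_left _ _)),
        hb y (hy.mono (le_max_right _ _))⟩⟩
    | sUnion S _ hS =>
      rintro x ⟨U, hU, hx⟩
      obtain ⟨a, ha⟩ := hS U hU x hx
      exact ⟨a, fun y hy => ⟨U, hU, ha y hy⟩⟩
  · intro h
    choose! a ha using h
    have : U = ⋃₀ {V | ∃ x ∈ U, V = {y | Agree (a x) y x}} := by
      ext x
      constructor
      · intro hx
        exact ⟨_, ⟨x, hx, rfl⟩, fun b _ => rfl⟩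
      · rintro ⟨V, ⟨z, hz, rfl⟩, hx⟩
        exact ha z hz x hx
    rw [this]
    apply TopologicalSpace.GenerateOpen.sUnion
    rintro V ⟨x, hx, rfl⟩
    exact TopologicalSpace.GenerateOpen.basic _ ⟨a x, x, rfl⟩

theorem isClosed_iff [Nonempty κ.ord.ToType] (E : Set (Pt κ)) :
    IsClosed[boundedTop κ] E ↔ ∀ x, (∀ a, ∃ y ∈ E, Agree a y x) → x ∈ E := by
  rw [← @isOpen_compl_iff _ _ (boundedTop κ), isOpen_iff]
  constructor
  · intro h x hx
    by_contra hxE
    obtain ⟨a, ha⟩ := h x hxE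
    obtain ⟨y, hy, hyx⟩ := hx a
    exact ha y hyx hy
  · intro h x hx
    by_contra hcon
    push Not at hcon
    apply hx
    apply h
    intro a
    obtain ⟨y, hy, hyE⟩ := hcon a
    exact ⟨y, not_not.1 hyE, hy⟩

theorem continuous_iff [Nonempty κ.ord.ToType] (f : Pt κ → Pt κ) :
    Continuous[boundedTop κ, boundedTop κ] f ↔
      ∀ x a, ∃ b, ∀ y, Agree b y x → Agree a (f y) (f x) := by
  constructor
  · intro h x a
    have h1 : IsOpen[boundedTop κ] {y | Agree a y (f x)} := by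
      rw [isOpen_iff]
      intro z hz
      exact ⟨a, fun y hy => hy.trans hz⟩
    have h2 : IsOpen[boundedTop κ] (f ⁻¹' {y | Agree a y (f x)}) :=
      (@continuous_def _ _ (boundedTop κ) (boundedTop κ) f).1 h _ h1
    rw [isOpen_iff] at h2
    obtain ⟨b, hb⟩ := h2 x (fun _ _ => rfl)
    exact ⟨b, hb⟩
  · intro h
    rw [@continuous_def _ _ (boundedTop κ) (boundedTop κ) f]
    intro U hU
    rw [isOpen_iff] at hU ⊢
    intro x hx
    obtain ⟨a, ha⟩ := hU _ hx
    obtain ⟨b, hb⟩ := h x a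
    exact ⟨b, fun y hy => ha _ (hb y hy)⟩

/-! ### Closures of unions of perfect sets -/

theorem pos_zero (x₀ : Pt κ) (σ : List κ.ord.ToType → Pt κ) (a : ℕ → κ.ord.ToType) :
    pos x₀ σ a 0 = x₀ := rfl

theorem pos_succ (x₀ : Pt κ) (σ : List κ.ord.ToType → Pt κ) (a : ℕ → κ.ord.ToType) (n : ℕ) :
    pos x₀ σ a (n + 1) = σ ((List.range (n + 1)).map a) := rfl

/-- The union of a family of perfect sets. -/
def bigUnion (E : Set (Pt κ)) : Set (Pt κ) := ⋃₀ {P | P ⊆ E ∧ OmegaOnePerfect P}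

theorem WinsII.mono {P E : Set (Pt κ)} (h : P ⊆ E) {x₀ : Pt κ} (hw : WinsII P x₀) :
    WinsII E x₀ := by
  obtain ⟨σ, τ, hστ⟩ := hw
  refine ⟨σ, τ, fun a ha => ?_⟩
  obtain ⟨h1, h2, h3⟩ := hστ a ha
  exact ⟨fun n hn => ⟨h (h1 n hn).1, (h1 n hn).2⟩, h h2, h3⟩

open Classical in
theorem closure_perfect [Nonempty κ.ord.ToType] (E : Set (Pt κ)) (hE : IsClosed[boundedTop κ] E) :
    ∃ P ⊆ E, OmegaOnePerfect P ∧ bigUnion E ⊆ P := by
  set U := bigUnion E with hU
  set P : Set (Pt κ) := {x | ∀ a, ∃ y ∈ U, Agree a y x} with hP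
  have hUE : U ⊆ E := by
    rintro x ⟨Q, ⟨hQE, -⟩, hx⟩
    exact hQE hx
  have hUP : U ⊆ P := fun x hx a => ⟨x, hx, fun _ _ => rfl⟩
  refine ⟨P, ?_, ⟨?_, ?_⟩, hUP⟩
  · intro x hx
    exact (isClosed_iff E).1 hE x fun a => by
      obtain ⟨y, hy, hyx⟩ := hx a
      exact ⟨y, hUE hy, hyx⟩
  · rw [isClosed_iff]
    intro x hx a
    obtain ⟨y, hy, hyx⟩ := hx a
    obtain ⟨z, hz, hzy⟩ := hy a
    exact ⟨z, hz, hzy.trans hyx⟩
  · intro x₀ hx₀
    by_cases hx₀U : x₀ ∈ U
    · obtain ⟨Q, ⟨hQE, hQ⟩, hxQ⟩ := hx₀U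
      have hQP : Q ⊆ P := fun x hx => hUP ⟨Q, ⟨hQE, hQ⟩, hx⟩
      exact (hQ.2 x₀ hxQ).mono hQP
    · -- first move: jump into `U`
      have hx₀' : ∀ a, ∃ y ∈ U, Agree a y x₀ := hx₀
      choose y hyU hya using hx₀'
      have hwin : ∀ z ∈ U, WinsII U z := by
        rintro z ⟨Q, ⟨hQE, hQ⟩, hz⟩
        have hQU : Q ⊆ U := fun x hx => ⟨Q, ⟨hQE, hQ⟩, hx⟩
        exact (hQ.2 z hz).mono hQU
      choose! S T hST using hwin
      refine ⟨fun l => match l with
        | [] => x₀
        | [b] => y b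
        | b :: c :: l => S (y b) (c :: l), fun a => T (y (a 0)) (fun n => a (n + 1)), ?_⟩
      intro a ha
      have ha' : StrictMono fun n => a (n + 1) := fun i j hij => ha (by omega)
      obtain ⟨h1, h2, h3⟩ := hST (y (a 0)) (hyU _) _ ha'
      set p := pos (y (a 0)) (S (y (a 0))) (fun n => a (n + 1)) with hp
      set q := pos x₀ (fun l => match l with
        | [] => x₀
        | [b] => y b
        | b :: c :: l => S (y b) (c :: l)) a with hq
      have hqp : ∀ n, q (n + 1) = p n := by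
        intro n
        rw [hq, pos_succ, hp]
        cases n with
        | zero => rfl
        | succ n =>
          rw [pos_succ, List.range_succ_eq_map, List.range_succ_eq_map]
          simp only [List.map_cons, List.map_map]
          congr 1
      have hq0 : q 0 = x₀ := rfl
      have hpU : ∀ n, p n ∈ U := by
        intro n
        cases n with
        | zero => exact hyU _
        | succ n => exact (h1 (n + 1) (by omega)).1
      have hne0 : ∀ z ∈ U, z ≠ x₀ := by
        rintro z hz rfl; exact hx₀U hz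
      have hagree0 : ∀ n, Agree (a 0) (p n) x₀ := by
        intro n
        cases n with
        | zero => exact hya _
        | succ n =>
          have := ((h1 (n + 1) (by omega)).2 0 (by omega)).2
          exact (this.mono (ha.monotone (by omega))).trans (hya _)
      refine ⟨?_, hUP h2, ?_⟩
      · intro n hn
        obtain ⟨n, rfl⟩ : ∃ k, n = k + 1 := ⟨n - 1, by omega⟩
        rw [hqp]
        refine ⟨hUP (hpU n), ?_⟩
        intro i hi
        cases i with
        | zero => rw [hq0]; exact ⟨hne0 _ (hpU n), hagree0 n⟩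
        | succ i =>
          rw [hqp]
          exact (h1 n (by omega)).2 i (by omega)
      · intro i
        cases i with
        | zero =>
          rw [hq0]
          refine ⟨hne0 _ h2, ?_⟩
          exact ((h3 0).2.mono (ha.monotone (by omega))).trans (hya _)
        | succ i => rw [hqp]; exact h3 i

/-! ### Every closed set is a continuous image up to isolated points -/

/-- `x` leaves `C` at level `a`. -/
def Out (C : Set (Pt κ)) (x : Pt κ) (a : κ.ord.ToType) : Prop := ∀ z ∈ C, ¬ Agree a z x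

theorem Out.congr {C : Set (Pt κ)} {x y : Pt κ} {a : κ.ord.ToType} (h : Out C x a)
    (hxy : Agree a x y) : Out C y a := fun z hz hzy => h z hz (hzy.trans hxy.symm)

open Classical in
/-- The retraction: `x` is fixed if it is never out of `C`; otherwise it is made zero from the
least level on at which it is out of `C`. -/
noncomputable def retr [Nonempty κ.ord.ToType] (C : Set (Pt κ)) (x : Pt κ) : Pt κ :=
  fun b => if ∃ a ≤ b, Out C x a then Classical.arbitrary κ.ord.ToType else x b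

theorem retr_of_not_out [Nonempty κ.ord.ToType] {C : Set (Pt κ)} {x : Pt κ} {a : κ.ord.ToType}
    (h : ∀ b < a, ¬ Out C x b) : Agree a (retr C x) x := by
  intro b hb
  rw [retr, if_neg]
  rintro ⟨c, hc, hc'⟩
  exact h c (lt_of_le_of_lt hc hb) hc'

/-- If `y` agrees with `x` up to a level where `x` is out of `C`, they have the same image. -/
theorem retr_congr [Nonempty κ.ord.ToType] {C : Set (Pt κ)} {x y : Pt κ} {a : κ.ord.ToType}
    (h : Out C x a) (hxy : Agree a y x) : retr C y = retr C x := by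
  funext b
  have h' : Out C y a := h.congr hxy.symm
  by_cases hb : a ≤ b
  · rw [retr, retr, if_pos ⟨a, hb, h'⟩, if_pos ⟨a, hb, h⟩]
  · rw [not_le] at hb
    have : (∃ c ≤ b, Out C y c) ↔ ∃ c ≤ b, Out C x c := by
      constructor
      · rintro ⟨c, hc, hc'⟩
        exact ⟨c, hc, hc'.congr (hxy.mono (hc.trans hb.le))⟩
      · rintro ⟨c, hc, hc'⟩
        exact ⟨c, hc, hc'.congr (hxy.symm.mono (hc.trans hb.le))⟩
    rw [retr, retr]
    by_cases hc : ∃ c ≤ b, Out C x c
    · rw [if_pos hc, if_pos (this.2 hc)]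
    · rw [if_neg hc, if_neg (fun h => hc (this.1 h)), hxy b hb]

theorem retr_retr [Nonempty κ.ord.ToType] (C : Set (Pt κ)) (x : Pt κ) :
    retr C (retr C x) = retr C x := by
  by_cases h : ∃ a, Out C x a
  · -- least level
    obtain ⟨a, ha, hmin⟩ := WellFounded.has_min (wellFounded_lt (α := κ.ord.ToType))
      {a | Out C x a} h
    exact retr_congr ha (retr_of_not_out fun b hb hb' => hmin b hb' hb)
  · have : retr C x = x := by
      funext b
      rw [retr, if_neg]
      rintro ⟨c, -, hc⟩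
      exact h ⟨c, hc⟩
    rw [this, this]

theorem not_out_of_mem {C : Set (Pt κ)} {x : Pt κ} (hx : x ∈ C) (a : κ.ord.ToType) :
    ¬ Out C x a := fun h => h x hx fun _ _ => rfl

theorem retr_of_mem [Nonempty κ.ord.ToType] {C : Set (Pt κ)} {x : Pt κ} (hx : x ∈ C) :
    retr C x = x := by
  funext b
  rw [retr, if_neg]
  rintro ⟨c, -, hc⟩
  exact not_out_of_mem hx c hc

theorem retr_continuous [Nonempty κ.ord.ToType] (C : Set (Pt κ)) :
    Continuous[boundedTop κ, boundedTop κ] (retr C) := by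
  rw [continuous_iff]
  intro x a
  by_cases h : ∃ b, Out C x b
  · obtain ⟨b, hb⟩ := h
    refine ⟨b, fun y hy => ?_⟩
    rw [retr_congr hb hy]
    exact fun _ _ => rfl
  · push Not at h
    refine ⟨a, fun y hy => ?_⟩
    have h1 : ∀ b < a, ¬ Out C y b := fun b hb hyb => h b (hyb.congr (hy.mono hb.le))
    exact (retr_of_not_out h1).trans (hy.trans (retr_of_not_out fun b _ => h b).symm)

theorem range_retr_closed [Nonempty κ.ord.ToType] [NoMaxOrder κ.ord.ToType] (C : Set (Pt κ)) :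
    IsClosed[boundedTop κ] (Set.range (retr C)) := by
  rw [isClosed_iff]
  intro x hx
  refine ⟨x, ?_⟩
  funext b
  by_contra hne
  have hb : ∃ a ≤ b, Out C x a := by
    by_contra h
    exact hne (by rw [retr, if_neg h])
  obtain ⟨c, hc⟩ := exists_gt b
  obtain ⟨y, ⟨z, rfl⟩, hy⟩ := hx c
  obtain ⟨a, hab, ha⟩ := hb
  have h1 : retr C (retr C z) = retr C x := retr_congr ha (hy.mono (hab.trans hc.le))
  rw [retr_retr] at h1
  exact hne (by rw [← h1, hy b hc])

theorem exists_strictMono_from [NoMaxOrder κ.ord.ToType] (a : κ.ord.ToType) :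
    ∃ f : ℕ → κ.ord.ToType, StrictMono f ∧ f 0 = a := by
  choose g hg using fun b : κ.ord.ToType => exists_gt b
  refine ⟨fun n => Nat.rec a (fun _ b => g b) n, ?_, rfl⟩
  exact strictMono_nat_of_lt_succ fun n => hg _

/-- A perfect subset of the range of the retraction lies in `C`. -/
theorem perfect_subset_of_range [Nonempty κ.ord.ToType] [NoMaxOrder κ.ord.ToType]
    {C P : Set (Pt κ)} (hC : IsClosed[boundedTop κ] C) (hP : P ⊆ Set.range (retr C))
    (hperf : OmegaOnePerfect P) : P ⊆ C := by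
  intro x hx
  by_contra hxC
  have hout : ∃ a, Out C x a := by
    by_contra h
    push Not at h
    apply hxC
    refine (isClosed_iff C).1 hC x fun a => ?_
    have := h a
    unfold Out at this
    push Not at this
    exact this
  obtain ⟨a, ha⟩ := hout
  obtain ⟨f, hf, hf0⟩ := exists_strictMono_from a
  obtain ⟨σ, τ, hστ⟩ := hperf.2 x hx
  obtain ⟨h1, -, -⟩ := hστ f hf
  obtain ⟨h2, h3⟩ := h1 1 le_rfl
  obtain ⟨h4, h5⟩ := h3 0 one_pos
  rw [pos_zero, hf0] at h5
  rw [pos_zero] at h4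
  obtain ⟨z, hz⟩ := hP h2
  obtain ⟨z', hz'⟩ := hP hx
  have h6 : retr C (pos x σ f 1) = retr C x := retr_congr ha h5
  rw [← hz, retr_retr, hz] at h6
  apply h4
  rw [h6, ← hz', retr_retr]

theorem removable_of_images [Nonempty κ.ord.ToType] [NoMaxOrder κ.ord.ToType]
    (h : ∀ E : Set (Pt κ), IsClosed[boundedTop κ] E → IsContinuousImage E → Removable E)
    (C : Set (Pt κ)) (hC : IsClosed[boundedTop κ] C) : Removable C := by
  obtain ⟨X, hX, hXc, hP⟩ := h (Set.range (retr C)) (range_retr_closed C)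
    ⟨retr C, retr_continuous C, rfl⟩
  have hPC : Set.range (retr C) \ X ⊆ C :=
    perfect_subset_of_range hC Set.sdiff_subset hP
  refine ⟨C \ (Set.range (retr C) \ X), Set.sdiff_subset, ?_, ?_⟩
  · refine le_trans (Cardinal.mk_le_mk_of_subset ?_) hXc
    rintro x ⟨hx, hx'⟩
    by_contra hxX
    exact hx' ⟨⟨x, retr_of_mem hx⟩, hxX⟩
  · rw [Set.sdiff_sdiff_cancel_left hPC]
    exact hP

/-! ### Cardinalities -/

/-- The basic open sets, indexed by functions on initial segments. -/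
def nb (i : Σ a : κ.ord.ToType, (Set.Iio a → κ.ord.ToType)) : Set (Pt κ) :=
  {y | ∀ b : Set.Iio i.1, y b = i.2 b}

theorem le_powerlt_self (hω : ℵ₀ < κ) : κ ≤ κ ^< κ := by
  have := Cardinal.le_powerlt κ (lt_of_lt_of_le one_lt_aleph0 hω.le)
  rwa [Cardinal.power_one] at this

theorem mk_index_le (hω : ℵ₀ < κ) :
    #(Σ a : κ.ord.ToType, (Set.Iio a → κ.ord.ToType)) ≤ κ ^< κ := by
  rw [Cardinal.mk_sigma]
  have h1 : ∀ a : κ.ord.ToType, #(Set.Iio a → κ.ord.ToType) ≤ κ ^< κ := by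
    intro a
    rw [← Cardinal.power_def, Cardinal.mk_ord_toType]
    exact Cardinal.le_powerlt κ (Cardinal.mk_Iio_toType_ord_lt a)
  calc Cardinal.sum (fun a : κ.ord.ToType => #(Set.Iio a → κ.ord.ToType))
      ≤ Cardinal.sum (fun _ : κ.ord.ToType => κ ^< κ) := Cardinal.sum_le_sum _ _ h1
    _ = κ * κ ^< κ := by rw [Cardinal.sum_const', Cardinal.mk_ord_toType]
    _ ≤ κ ^< κ * κ ^< κ := by gcongr; exact le_powerlt_self hω
    _ = κ ^< κ := Cardinal.mul_eq_self (hω.le.trans (le_powerlt_self hω))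

theorem nb_closed [Nonempty κ.ord.ToType]
    (i : Σ a : κ.ord.ToType, (Set.Iio a → κ.ord.ToType)) {E : Set (Pt κ)}
    (hE : IsClosed[boundedTop κ] E) : IsClosed[boundedTop κ] (E ∩ nb i) := by
  rw [isClosed_iff] at hE ⊢
  intro x hx
  refine ⟨hE x fun a => ?_, ?_⟩
  · obtain ⟨y, hy, hyx⟩ := hx a
    exact ⟨y, hy.1, hyx⟩
  · intro b
    obtain ⟨y, hy, hyx⟩ := hx i.1
    rw [← hyx b b.2]
    exact hy.2 b

theorem removable_of_psp [Nonempty κ.ord.ToType] (hω : ℵ₀ < κ)
    (h : ∀ E : Set (Pt κ), IsClosed[boundedTop κ] E → κ ^< κ < #E →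
      ∃ P ⊆ E, P.Nonempty ∧ OmegaOnePerfect P)
    (E : Set (Pt κ)) (hE : IsClosed[boundedTop κ] E) : Removable E := by
  obtain ⟨P, hPE, hP, hU⟩ := closure_perfect E hE
  refine ⟨E \ P, Set.sdiff_subset, ?_, ?_⟩
  swap
  · rw [Set.sdiff_sdiff_cancel_left hPE]; exact hP
  by_contra hbig
  rw [not_le] at hbig
  have hcover : E \ P ⊆ ⋃ i : {i : Σ a : κ.ord.ToType, (Set.Iio a → κ.ord.ToType) //
      Disjoint (nb i) P}, E ∩ nb i.1 := by
    rintro x ⟨hxE, hxP⟩
    have : ∃ a, ∀ y, Agree a y x → y ∉ P := by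
      by_contra hcon
      push Not at hcon
      apply hxP
      refine (isClosed_iff P).1 hP.1 x fun a => ?_
      obtain ⟨y, hy1, hy2⟩ := hcon a
      exact ⟨y, hy2, hy1⟩
    obtain ⟨a, ha⟩ := this
    rw [Set.mem_iUnion]
    refine ⟨⟨⟨a, fun b => x b⟩, ?_⟩, hxE, fun b => rfl⟩
    rw [Set.disjoint_left]
    intro y hy
    exact ha y fun b hb => hy ⟨b, hb⟩
  by_cases hall : ∀ i : {i : Σ a : κ.ord.ToType, (Set.Iio a → κ.ord.ToType) //
      Disjoint (nb i) P}, #(E ∩ nb i.1 : Set (Pt κ)) ≤ κ ^< κ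
  · refine absurd hbig (not_lt.2 ?_)
    have hidx : #{i : Σ a : κ.ord.ToType, (Set.Iio a → κ.ord.ToType) // Disjoint (nb i) P}
        ≤ κ ^< κ := (Cardinal.mk_subtype_le _).trans (mk_index_le hω)
    calc #(E \ P : Set (Pt κ)) ≤ _ := Cardinal.mk_le_mk_of_subset hcover
      _ ≤ _ := Cardinal.mk_iUnion_le_sum_mk
      _ ≤ Cardinal.sum (fun _ : {i : Σ a : κ.ord.ToType, (Set.Iio a → κ.ord.ToType) //
          Disjoint (nb i) P} => κ ^< κ) := Cardinal.sum_le_sum _ _ hall
      _ = _ := Cardinal.sum_const' _ _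
      _ ≤ κ ^< κ * κ ^< κ := by gcongr
      _ = κ ^< κ := Cardinal.mul_eq_self (hω.le.trans (le_powerlt_self hω))
  · push Not at hall
    obtain ⟨⟨i, hi⟩, hbig'⟩ := hall
    obtain ⟨Q, hQ, ⟨z, hz⟩, hQp⟩ := h _ (nb_closed i hE) hbig'
    have hzP : z ∈ P := hU ⟨Q, ⟨fun x hx => (hQ hx).1, hQp⟩, hz⟩
    exact Set.disjoint_left.1 hi (hQ hz).2 hzP

theorem psp_of_removable (E : Set (Pt κ)) (hbig : κ ^< κ < #E) (h : Removable E) :
    ∃ P ⊆ E, P.Nonempty ∧ OmegaOnePerfect P := by
  obtain ⟨X, hX, hXc, hP⟩ := h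
  refine ⟨E \ X, Set.sdiff_subset, ?_, hP⟩
  by_contra hne
  rw [Set.not_nonempty_iff_eq_empty, Set.sdiff_eq_empty] at hne
  exact absurd hbig (not_lt.2 ((Cardinal.mk_le_mk_of_subset hne).trans hXc))

end Pool.Agent.Lib.MP_e6371f_lc
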