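import Pool.Agent.Lib.MP_e6371f_lc.W

/-!
# Many countable partial functions with few values: two of them are compatible
-/

set_option linter.unusedSectionVars false
set_option linter.unusedVariables false
set_option linter.unusedSimpArgs false

open Set Cardinal

namespace Pool.Agent.Lib.MP_e6371f_lc

theorem mk_iUnion_cont {A ι : Type} {s : ι → Set A} (hι : #ι ≤ 𝔠) (hs : ∀ i, #(s i) ≤ 𝔠) :
    #(⋃ i, s i) ≤ 𝔠 := by
  refine mk_iUnion_le_sum_mk.trans ((sum_le_sum _ _ hs).trans ?_)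
  rw [sum_const']
  exact (mul_le_mul' hι le_rfl).trans (mul_eq_self aleph0_le_continuum).le

theorem seq_cont {A : Type} (hA : #A ≤ 𝔠) : #(ℕ → A) ≤ 𝔠 := by
  rw [← power_def, mk_nat]
  exact (power_le_power_right hA).trans continuum_power_aleph0.le

theorem prod_cont {A B : Type} (hA : #A ≤ 𝔠) (hB : #B ≤ 𝔠) : #(A × B) ≤ 𝔠 := by
  rw [mk_prod, lift_id, lift_id]
  exact (mul_le_mul' hA hB).trans (mul_eq_self aleph0_le_continuum).le

theorem W_cont : #W ≤ 𝔠 := by
  rw [W_card]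
  exact aleph_one_le_continuum

section

variable {I A R : Type} (l0 : A) (D : I → Set A) (sel : (ℕ → A × R) → I)

/-- one step of the closure -/
def stp (B : Set A) : Set A := B ∪ ⋃ h : {h : ℕ → A × R // ∀ n, (h n).1 ∈ B}, D (sel h.1)

/-- the levels of the closure -/
noncomputable def lev : W → Set A :=
  (wellFounded_lt (α := W)).fix fun w ih => {l0} ∪ ⋃ v : {v // v < w}, stp D sel (ih v.1 v.2)

theorem lev_eq (w : W) : lev l0 D sel w = {l0} ∪ ⋃ v : {v // v < w}, stp D sel (lev l0 D sel v.1) :=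
  (wellFounded_lt (α := W)).fix_eq _ w

theorem lev_mono {w v : W} (h : w ≤ v) : lev l0 D sel w ⊆ lev l0 D sel v := by
  rw [lev_eq l0 D sel w, lev_eq l0 D sel v]
  refine union_subset_union_right _ (iUnion_subset fun u => ?_)
  exact subset_iUnion (fun u : {u // u < v} => stp D sel (lev l0 D sel u.1)) ⟨u.1, u.2.trans_le h⟩

theorem stp_cont (hR : #R ≤ 𝔠) (hD : ∀ i, (D i).Countable) {B : Set A} (hB : #B ≤ 𝔠) :
    #(stp D sel B) ≤ 𝔠 := by
  refine (mk_union_le _ _).trans (add_le_of_le aleph0_le_continuum hB (mk_iUnion_cont ?_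
    fun h => ((le_aleph0_iff_set_countable.2 (hD _)).trans aleph0_le_continuum)))
  refine le_trans (mk_le_of_injective (f := fun (h : {h : ℕ → A × R // ∀ n, (h n).1 ∈ B}) =>
    (fun n => ((⟨(h.1 n).1, h.2 n⟩ : B), (h.1 n).2))) ?_) (seq_cont (prod_cont hB hR))
  intro h k hk
  refine Subtype.ext (funext fun n => ?_)
  have h1 := congrFun hk n
  simp only [Prod.mk.injEq, Subtype.mk.injEq] at h1
  exact Prod.ext h1.1 h1.2

theorem lev_cont (hR : #R ≤ 𝔠) (hD : ∀ i, (D i).Countable) (w : W) : #(lev l0 D sel w) ≤ 𝔠 := by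
  induction w using (wellFounded_lt (α := W)).induction with
  | _ w ih =>
    rw [lev_eq]
    refine (mk_union_le _ _).trans (add_le_of_le aleph0_le_continuum ?_ (mk_iUnion_cont ?_
      fun v => stp_cont D sel hR hD (ih v.1 v.2)))
    · rw [mk_singleton]
      exact one_le_aleph0.trans aleph0_le_continuum
    · exact (le_aleph0_iff_set_countable.2 (W_cnt w)).trans aleph0_le_continuum

end

theorem exists_compat {I A R : Type} (hI : 𝔠 < #I) (hR : #R ≤ 𝔠) (l0 : A) (D : I → Set A)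
    (hD : ∀ i, (D i).Countable) (h0 : ∀ i, l0 ∈ D i) (f : I → A → R) :
    ∃ i j, i ≠ j ∧ ∀ a ∈ D i, a ∈ D j → f i a = f j a := by
  classical
  have hne : Nonempty I := by
    rw [← mk_ne_zero_iff]
    exact (lt_of_le_of_lt (Cardinal.zero_le _) hI).ne'
  let sel : (ℕ → A × R) → I := fun h =>
    if hh : ∃ i, ∀ n, (h n).1 ∈ D i ∧ f i (h n).1 = (h n).2 then hh.choose else hne.some
  have hsel : ∀ h : ℕ → A × R, (∃ i, ∀ n, (h n).1 ∈ D i ∧ f i (h n).1 = (h n).2) →
      ∀ n, (h n).1 ∈ D (sel h) ∧ f (sel h) (h n).1 = (h n).2 := by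
    intro h hh
    have : sel h = hh.choose := dif_pos hh
    rw [this]
    exact hh.choose_spec
  let B : Set A := ⋃ w, lev l0 D sel w
  have hB : #B ≤ 𝔠 := mk_iUnion_cont W_cont fun w => lev_cont l0 D sel hR hD w
  have hl0 : l0 ∈ B := mem_iUnion.2 ⟨b0, by rw [lev_eq]; exact Or.inl rfl⟩
  let J : Set I := range fun h : {h : ℕ → A × R // ∀ n, (h n).1 ∈ B} => sel h.1
  have hJ : #J ≤ 𝔠 := by
    refine mk_range_le.trans (le_trans (mk_le_of_injective
      (f := fun (h : {h : ℕ → A × R // ∀ n, (h n).1 ∈ B}) =>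
      (fun n => ((⟨(h.1 n).1, h.2 n⟩ : B), (h.1 n).2))) ?_) (seq_cont (prod_cont hB hR)))
    intro h k hk
    refine Subtype.ext (funext fun n => ?_)
    have h1 := congrFun hk n
    simp only [Prod.mk.injEq, Subtype.mk.injEq] at h1
    exact Prod.ext h1.1 h1.2
  obtain ⟨i, hi⟩ : ∃ i, i ∉ J := by
    by_contra hc
    push Not at hc
    refine absurd hI (not_lt.2 ?_)
    rw [← mk_univ, ← (eq_univ_iff_forall.2 hc : J = Set.univ)]
    exact hJ
  have hcount : (D i ∩ B).Countable := (hD i).mono inter_subset_left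
  obtain ⟨en, hen⟩ := hcount.exists_eq_range ⟨l0, h0 i, hl0⟩
  let h : ℕ → A × R := fun n => (en n, f i (en n))
  have hrange : ∀ n, en n ∈ D i ∩ B := fun n => by rw [hen]; exact mem_range_self n
  have hs := hsel h ⟨i, fun n => ⟨(hrange n).1, rfl⟩⟩
  refine ⟨i, sel h, ?_, fun a ha ha' => ?_⟩
  · intro he
    exact hi ⟨⟨h, fun n => (hrange n).2⟩, he.symm⟩
  · have hsub : D (sel h) ⊆ B := by
      have h1 : ∀ n, ∃ w, en n ∈ lev l0 D sel w := fun n => mem_iUnion.1 (hrange n).2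
      choose w hw using h1
      obtain ⟨v, hv⟩ := W_bdd (countable_range w)
      have h2 : ∀ n, (h n).1 ∈ lev l0 D sel v := fun n =>
        lev_mono l0 D sel (hv _ (mem_range_self n)).le (hw n)
      intro b hb
      refine mem_iUnion.2 ⟨nx v, ?_⟩
      rw [lev_eq]
      refine Or.inr (mem_iUnion.2 ⟨⟨v, lt_nx v⟩, Or.inr (mem_iUnion.2 ⟨⟨h, h2⟩, hb⟩)⟩)
    have h3 : a ∈ D i ∩ B := ⟨ha, hsub ha'⟩
    rw [hen] at h3
    obtain ⟨n, rfl⟩ := h3
    exact (hs n).2.symm

end Pool.Agent.Lib.MP_e6371f_lc
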