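import Pool.Agent.Lib.MP_e6371f_lc.W

/-!
# The conditions: countable families of functions on a countable ordinal
-/

set_option linter.unusedSectionVars false
set_option linter.unusedVariables false
set_option linter.unusedSimpArgs false

open Set

namespace Pool.Agent.Lib.MP_e6371f_lc

/-- index type of the branches -/
abbrev Lm : Type := Set (ℕ → Bool)

/-- conditions -/
@[ext]
structure Kc where
  /-- the height -/
  δ : W
  /-- the domain -/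
  A : Set Lm
  /-- the functions -/
  x : Lm → W → W
  cnt : A.Countable
  base : (∅ : Lm) ∈ A
  ne : ∀ a ∈ A, ∀ i < δ, x a i ≠ b0
  out : ∀ a i, ¬ (a ∈ A ∧ i < δ) → x a i = b0

namespace Kc

instance : LE Kc := ⟨fun q p => p.δ ≤ q.δ ∧ p.A ⊆ q.A ∧ (∀ a ∈ p.A, ∀ i < p.δ, q.x a i = p.x a i) ∧
  ∀ a ∈ q.A, ∃ b ∈ p.A, ∀ i < p.δ, q.x a i = p.x b i⟩

theorem le_def {q p : Kc} : q ≤ p ↔ p.δ ≤ q.δ ∧ p.A ⊆ q.A ∧
    (∀ a ∈ p.A, ∀ i < p.δ, q.x a i = p.x a i) ∧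
    ∀ a ∈ q.A, ∃ b ∈ p.A, ∀ i < p.δ, q.x a i = p.x b i := Iff.rfl

instance : PartialOrder Kc where
  le_refl p := ⟨le_rfl, subset_rfl, fun _ _ _ _ => rfl, fun a ha => ⟨a, ha, fun _ _ => rfl⟩⟩
  le_trans r q p h h' := by
    refine ⟨h'.1.trans h.1, h'.2.1.trans h.2.1, fun a ha i hi => ?_, fun a ha => ?_⟩
    · rw [h.2.2.1 a (h'.2.1 ha) i (hi.trans_le h'.1), h'.2.2.1 a ha i hi]
    · obtain ⟨b, hb, h1⟩ := h.2.2.2 a ha
      obtain ⟨c, hc, h2⟩ := h'.2.2.2 b hb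
      exact ⟨c, hc, fun i hi => (h1 i (hi.trans_le h'.1)).trans (h2 i hi)⟩
  le_antisymm p q h h' := by
    have h1 : p.δ = q.δ := le_antisymm h'.1 h.1
    have h2 : p.A = q.A := subset_antisymm h'.2.1 h.2.1
    refine Kc.ext h1 h2 ?_
    funext a i
    by_cases hc : a ∈ p.A ∧ i < p.δ
    · exact (h'.2.2.1 a hc.1 i hc.2).symm
    · rw [p.out a i hc, q.out a i (by rwa [← h2, ← h1])]

noncomputable instance : OrderTop Kc where
  top := ⟨b0, {∅}, fun _ _ => b0, countable_singleton _, rfl, fun _ _ i hi => absurd hi (not_lt_b0 i),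
    fun _ _ _ => rfl⟩
  le_top p := ⟨b0_le _, singleton_subset_iff.2 p.base, fun _ _ i hi => absurd hi (not_lt_b0 i),
    fun a _ => ⟨∅, rfl, fun i hi => absurd hi (not_lt_b0 i)⟩⟩

/-- higher conditions -/
theorem extend (p : Kc) (d : W) (h : p.δ ≤ d) (v : Lm → W → W) (hv : ∀ a i, v a i ≠ b0) :
    ∃ q ≤ p, q.δ = d ∧ q.A = p.A ∧ ∀ a ∈ p.A, ∀ i, p.δ ≤ i → i < d → q.x a i = v a i := by
  classical
  refine ⟨⟨d, p.A, fun a i => if a ∈ p.A ∧ i < d then (if i < p.δ then p.x a i else v a i) else b0,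
    p.cnt, p.base, fun a ha i hi => ?_, fun a i hc => if_neg hc⟩, ⟨h, subset_rfl, ?_, ?_⟩, rfl,
    rfl, fun a ha i h1 h2 => ?_⟩
  · rw [if_pos ⟨ha, hi⟩]
    split_ifs with h1
    · exact p.ne a ha i h1
    · exact hv a i
  · intro a ha i hi
    exact (if_pos ⟨ha, hi.trans_le h⟩).trans (if_pos hi)
  · intro a ha
    exact ⟨a, ha, fun i hi => (if_pos ⟨ha, hi.trans_le h⟩).trans (if_pos hi)⟩
  · exact (if_pos ⟨ha, h2⟩).trans (if_neg (not_lt.2 h1))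

theorem exists_height (p : Kc) (d : W) : ∃ q ≤ p, d < q.δ := by
  obtain ⟨q, hq, h1, _⟩ := p.extend (nx (max p.δ d)) ((le_max_left _ _).trans (lt_nx _).le)
    (fun _ _ => nx b0) (fun _ _ => nx_ne _)
  exact ⟨q, hq, by rw [h1]; exact (le_max_right _ _).trans_lt (lt_nx _)⟩

/-- more functions -/
theorem addIdx (p : Kc) (l : Lm) : ∃ q ≤ p, q.δ = p.δ ∧ l ∈ q.A := by
  classical
  refine ⟨⟨p.δ, insert l p.A, fun a i => if a ∈ p.A then p.x a i else if a = l then p.x ∅ i else b0,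
    p.cnt.insert l, mem_insert_of_mem _ p.base, fun a ha i hi => ?_, fun a i hc => ?_⟩,
    ⟨le_rfl, subset_insert _ _, ?_, ?_⟩, rfl, mem_insert _ _⟩
  · split_ifs with h1 h2
    · exact p.ne a h1 i hi
    · exact p.ne ∅ p.base i hi
    · exact absurd ha (by rw [mem_insert_iff]; tauto)
  · split_ifs with h1 h2
    · exact p.out a i fun h => hc ⟨mem_insert_of_mem _ h.1, h.2⟩
    · exact p.out ∅ i fun h => hc ⟨mem_insert_iff.2 (Or.inl h2), h.2⟩
    · rfl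
  · intro a ha i hi
    exact if_pos ha
  · intro a ha
    rcases mem_insert_iff.1 ha with rfl | ha
    · by_cases h1 : a ∈ p.A
      · exact ⟨a, h1, fun i hi => if_pos h1⟩
      · exact ⟨∅, p.base, fun i hi => (if_neg h1).trans (if_pos rfl)⟩
    · exact ⟨a, ha, fun i hi => if_pos ha⟩

/-- different indices have different functions -/
theorem split (p : Kc) {l k : Lm} (h : l ≠ k) : ∃ q ≤ p, ∃ i, l ∈ q.A ∧ k ∈ q.A ∧ i < q.δ ∧
    q.x l i ≠ q.x k i := by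
  classical
  obtain ⟨p1, h1, _, hl⟩ := p.addIdx l
  obtain ⟨p2, h2, _, hk⟩ := p1.addIdx k
  have hl2 : l ∈ p2.A := h2.2.1 hl
  obtain ⟨q, hq, hδ, hA, hx⟩ := p2.extend (nx p2.δ) (lt_nx _).le
    (fun a _ => if a = l then nx b0 else nx (nx b0)) (fun a i => by
      split_ifs <;> exact nx_ne _)
  refine ⟨q, hq.trans (h2.trans h1), p2.δ, by rw [hA]; exact hl2, by rw [hA]; exact hk,
    by rw [hδ]; exact lt_nx _, ?_⟩
  rw [hx l hl2 _ le_rfl (lt_nx _), hx k hk _ le_rfl (lt_nx _), if_pos rfl, if_neg (Ne.symm h)]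
  exact (lt_nx _).ne

/-- limits of sequences of conditions -/
theorem limit (c : ℕ → Kc) (hc : ∀ n, c (n + 1) ≤ c n) : ∃ d : Kc, (∀ n, d ≤ c n) ∧
    (∀ a ∈ d.A, ∃ n, a ∈ (c n).A) ∧ ∀ i < d.δ, ∃ n, i < (c n).δ := by
  classical
  have anti : ∀ {k n}, k ≤ n → c n ≤ c k := fun h => antitone_nat_of_succ_le hc h
  obtain ⟨s, hs, hs'⟩ := exists_sup fun n => (c n).δ
  let x : Lm → W → W := fun a i =>
    if h : ∃ n, a ∈ (c n).A ∧ i < (c n).δ then (c h.choose).x a i else b0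
  have key : ∀ n a i, a ∈ (c n).A → i < (c n).δ → x a i = (c n).x a i := by
    intro n a i ha hi
    have h : ∃ n, a ∈ (c n).A ∧ i < (c n).δ := ⟨n, ha, hi⟩
    have h1 : x a i = (c h.choose).x a i := dif_pos h
    obtain ⟨h2, h3⟩ := h.choose_spec
    rw [h1, ← (anti (le_max_left h.choose n)).2.2.1 a h2 i h3,
      (anti (le_max_right h.choose n)).2.2.1 a ha i hi]
  have both : ∀ a i, (∃ n, a ∈ (c n).A) → i < s → ∃ n, a ∈ (c n).A ∧ i < (c n).δ := by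
    rintro a i ⟨n, hn⟩ hi
    obtain ⟨k, hk⟩ := hs' i hi
    exact ⟨max n k, (anti (le_max_left n k)).2.1 hn, hk.trans_le (anti (le_max_right n k)).1⟩
  refine ⟨⟨s, ⋃ n, (c n).A, x, countable_iUnion fun n => (c n).cnt, mem_iUnion.2 ⟨0, (c 0).base⟩,
    fun a ha i hi => ?_, fun a i h => ?_⟩, fun n => ⟨hs n, subset_iUnion (fun n => (c n).A) n,
    fun a ha i hi => key n a i ha hi, fun a ha => ?_⟩, fun a ha => mem_iUnion.1 ha, hs'⟩
  · obtain ⟨n, h1, h2⟩ := both a i (mem_iUnion.1 ha) hi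
    rw [key n a i h1 h2]
    exact (c n).ne a h1 i h2
  · refine dif_neg ?_
    rintro ⟨n, h1, h2⟩
    exact h ⟨mem_iUnion.2 ⟨n, h1⟩, h2.trans_le (hs n)⟩
  · obtain ⟨k, hk⟩ := mem_iUnion.1 ha
    have h1 : a ∈ (c (max n k)).A := (anti (le_max_right n k)).2.1 hk
    obtain ⟨b, hb, h2⟩ := (anti (le_max_left n k)).2.2.2 a h1
    refine ⟨b, hb, fun i hi => ?_⟩
    rw [← h2 i hi]
    exact key _ a i h1 (hi.trans_le (anti (le_max_left n k)).1)

theorem closed (c : ℕ → Kc) (hc : ∀ n, c (n + 1) ≤ c n) : ∃ d : Kc, ∀ n, d ≤ c n :=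
  (limit c hc).imp fun _ h => h.1

/-- compatibility -/
theorem compat (p q : Kc) (hδ : p.δ = q.δ)
    (h1 : ∀ a ∈ p.A, ∃ b ∈ q.A, ∀ i < p.δ, p.x a i = q.x b i)
    (h2 : ∀ b ∈ q.A, ∃ a ∈ p.A, ∀ i < p.δ, q.x b i = p.x a i)
    (h3 : ∀ a ∈ p.A, a ∈ q.A → ∀ i < p.δ, p.x a i = q.x a i) : ∃ r, r ≤ p ∧ r ≤ q := by
  classical
  refine ⟨⟨p.δ, p.A ∪ q.A, fun a i => if a ∈ p.A then p.x a i else q.x a i, p.cnt.union q.cnt,
    Or.inl p.base, fun a ha i hi => ?_, fun a i h => ?_⟩, ⟨le_rfl, subset_union_left, ?_, ?_⟩,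
    ⟨hδ.ge, subset_union_right, ?_, ?_⟩⟩
  · split_ifs with h
    · exact p.ne a h i hi
    · exact q.ne a (ha.resolve_left h) i (hδ ▸ hi)
  · split_ifs with h4
    · exact p.out a i fun h5 => h ⟨Or.inl h4, h5.2⟩
    · exact q.out a i fun h5 => h ⟨Or.inr h5.1, hδ ▸ h5.2⟩
  · intro a ha i hi
    exact if_pos ha
  · intro a ha
    by_cases h : a ∈ p.A
    · exact ⟨a, h, fun i hi => if_pos h⟩
    · obtain ⟨b, hb, h4⟩ := h2 a (ha.resolve_left h)
      exact ⟨b, hb, fun i hi => (if_neg h).trans (h4 i hi)⟩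
  · intro a ha i hi
    change (if a ∈ p.A then p.x a i else q.x a i) = q.x a i
    split_ifs with h
    · exact h3 a h ha i (hδ ▸ hi)
    · rfl
  · intro a ha
    by_cases h : a ∈ p.A
    · obtain ⟨b, hb, h4⟩ := h1 a h
      exact ⟨b, hb, fun i hi => (if_pos h).trans (h4 i (hδ ▸ hi))⟩
    · exact ⟨a, ha.resolve_left h, fun i hi => if_neg h⟩

end Kc

end Pool.Agent.Lib.MP_e6371f_lc
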