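import Pool.Agent.Lib.MP_e6371f_lc.Notions

/-!
# Evaluation of the formulas
-/

set_option linter.unusedSectionVars false
set_option linter.unusedVariables false
set_option linter.unusedSimpArgs false

universe u v

namespace Pool.Agent.SymExt

variable {Ω : Type u} {V : Type v} (l : Lg Ω V)

theorem eval_trs {x n : ℕ} (hx : x < n) (s : ℕ → V) : l.eval (.trs x n) s = l.trs (s x) := by
  simp (disch := omega) only [Fm.trs, Lg.trs, Lg.eval, Lg.eval_and,
    Function.update_of_ne, Function.update_self]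

theorem eval_kij {f S T n : ℕ} (hf : f < n) (hS : S < n) (hT : T < n)
    (s : ℕ → V) : l.eval (.kij f S T n) s = l.kij (s f) (s S) (s T) := by
  simp (disch := omega) only [Fm.kij, Lg.kij, Lg.eval, Lg.eval_and, eval_isFun,
    eval_app, Function.update_of_ne, Function.update_self]

theorem eval_kun {w X n : ℕ} (hw : w < n) (hX : X < n)
    (s : ℕ → V) : l.eval (.kun w X n) s = l.kun (s w) (s X) := by
  simp (disch := omega) only [Fm.kun, Lg.kun, Lg.eval, Lg.eval_and, Lg.eval_neg, Lg.eval_ex,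
    eval_isFun, eval_app, Function.update_of_ne, Function.update_self]

theorem eval_om1 {w κ n : ℕ} (hw : w < n) (hκ : κ < n)
    (s : ℕ → V) : l.eval (.om1 w κ n) s = l.om1 (s w) (s κ) := by
  simp (disch := omega) only [Fm.om1, Lg.om1, Lg.eval, Lg.eval_and, Lg.eval_or, Lg.eval_ex,
    eval_trs, eval_kij, eval_kun, Function.update_of_ne, Function.update_self]

theorem eval_klim {κ n : ℕ} (hκ : κ < n) (s : ℕ → V) :
    l.eval (.klim κ n) s = l.klim (s κ) := by
  simp (disch := omega) only [Fm.klim, Lg.klim, Lg.eval, Lg.eval_and, Lg.eval_ex,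
    eval_empty, Function.update_of_ne, Function.update_self]

theorem eval_ktr {κ T n : ℕ} (hκ : κ < n) (hT : T < n) (s : ℕ → V) :
    l.eval (.ktr κ T n) s = l.ktr (s κ) (s T) := by
  simp (disch := omega) only [Fm.ktr, Lg.ktr, Lg.eval, Lg.eval_and, Lg.eval_ex, Lg.eval_neg,
    eval_empty, eval_isFun, eval_app, eval_sub, eval_adj, Function.update_of_ne,
    Function.update_self]

theorem eval_kgd {T x i n : ℕ} (hT : T < n) (hx : x < n) (hi : i < n) (s : ℕ → V) :
    l.eval (.kgd T x i n) s = l.kgd (s T) (s x) (s i) := by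
  simp (disch := omega) only [Fm.kgd, Lg.kgd, Lg.eval, Lg.eval_and, Lg.eval_ex,
    eval_app, eval_sub, Function.update_of_ne, Function.update_self]

theorem eval_kbr {κ T x n : ℕ} (hκ : κ < n) (hT : T < n) (hx : x < n) (s : ℕ → V) :
    l.eval (.kbr κ T x n) s = l.kbr (s κ) (s T) (s x) := by
  simp (disch := omega) only [Fm.kbr, Lg.kbr, Lg.eval, Lg.eval_and, eval_isFun, eval_kgd,
    Function.update_of_ne, Function.update_self]

theorem eval_kmany {κ T n : ℕ} (hκ : κ < n) (hT : T < n) (s : ℕ → V) :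
    l.eval (.kmany κ T n) s = l.kmany (s κ) (s T) := by
  simp (disch := omega) only [Fm.kmany, Lg.kmany, Lg.eval, Lg.eval_and, Lg.eval_ex, Lg.eval_neg,
    eval_isFun, eval_kij, eval_kbr, Function.update_of_ne, Function.update_self]

theorem eval_kag {x y α n : ℕ} (hx : x < n) (hy : y < n) (hα : α < n) (s : ℕ → V) :
    l.eval (.kag x y α n) s = l.kag (s x) (s y) (s α) := by
  simp (disch := omega) only [Fm.kag, Lg.kag, Lg.eval, Lg.eval_iff, eval_app,
    Function.update_of_ne, Function.update_self]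

theorem eval_kinc {a n : ℕ} (ha : a < n) (s : ℕ → V) :
    l.eval (.kinc a n) s = l.kinc (s a) := by
  simp (disch := omega) only [Fm.kinc, Lg.kinc, Lg.eval, Lg.eval_and, eval_app,
    Function.update_of_ne, Function.update_self]

theorem eval_kpos {κ a m s' n : ℕ} (hκ : κ < n) (ha : a < n) (hm : m < n) (hs : s' < n)
    (s : ℕ → V) : l.eval (.kpos κ a m s' n) s = l.kpos (s κ) (s a) (s m) (s s') := by
  simp (disch := omega) only [Fm.kpos, Lg.kpos, Lg.eval, Lg.eval_and, eval_isFun, eval_sub,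
    Function.update_of_ne, Function.update_self]

theorem eval_kst0 {w κ D x0 σ n : ℕ} (hw : w < n) (hκ : κ < n) (hD : D < n) (hx : x0 < n)
    (hσ : σ < n) (s : ℕ → V) :
    l.eval (.kst0 w κ D x0 σ n) s = l.kst0 (s w) (s κ) (s D) (s x0) (s σ) := by
  simp (disch := omega) only [Fm.kst0, Lg.kst0, Lg.eval, Lg.eval_and, Lg.eval_ex, eval_isFun,
    eval_empty, eval_app, Function.update_of_ne, Function.update_self]

theorem eval_kst1 {w κ D σ n : ℕ} (hw : w < n) (hκ : κ < n) (hD : D < n)
    (hσ : σ < n) (s : ℕ → V) :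
    l.eval (.kst1 w κ D σ n) s = l.kst1 (s w) (s κ) (s D) (s σ) := by
  simp (disch := omega) only [Fm.kst1, Lg.kst1, Lg.eval, Lg.eval_and, Lg.eval_neg, eval_isFun,
    eval_kinc, eval_kpos, eval_kag, eval_app, Function.update_of_ne, Function.update_self]

theorem eval_kst2 {w κ D σ n : ℕ} (hw : w < n) (hκ : κ < n) (hD : D < n)
    (hσ : σ < n) (s : ℕ → V) :
    l.eval (.kst2 w κ D σ n) s = l.kst2 (s w) (s κ) (s D) (s σ) := by
  simp (disch := omega) only [Fm.kst2, Lg.kst2, Lg.eval, Lg.eval_and, Lg.eval_neg, Lg.eval_ex,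
    eval_isFun, eval_kinc, eval_kpos, eval_kag, eval_app, Function.update_of_ne,
    Function.update_self]

theorem eval_kst {w κ D x0 σ n : ℕ} (hw : w < n) (hκ : κ < n) (hD : D < n) (hx : x0 < n)
    (hσ : σ < n) (s : ℕ → V) :
    l.eval (.kst w κ D x0 σ n) s = l.kst (s w) (s κ) (s D) (s x0) (s σ) := by
  simp (disch := omega) only [Fm.kst, Lg.kst, Lg.eval_and, eval_kst0, eval_kst1, eval_kst2]

theorem eval_knost {w κ T n : ℕ} (hw : w < n) (hκ : κ < n) (hT : T < n) (s : ℕ → V) :
    l.eval (.knost w κ T n) s = l.knost (s w) (s κ) (s T) := by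
  simp (disch := omega) only [Fm.knost, Lg.knost, Lg.eval, Lg.eval_and, Lg.eval_neg,
    eval_kbr, eval_kst, Function.update_of_ne, Function.update_self]

theorem eval_kcl {w κ n : ℕ} (hw : w < n) (hκ : κ < n) (s : ℕ → V) :
    l.eval (.kcl w κ n) s = l.kcl (s w) (s κ) := by
  simp (disch := omega) only [Fm.kcl, Lg.kcl, Lg.eval, Lg.eval_and, Lg.eval_ex, eval_isFun,
    eval_kinc, eval_empty, eval_app, Function.update_of_ne, Function.update_self]

theorem eval_kur (s : ℕ → V) : l.eval .kur s = l.kur := by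
  simp (disch := omega) only [Fm.kur, Lg.kur, Lg.eval_ex, Lg.eval_and, eval_isOm, eval_om1,
    eval_klim, eval_ktr, eval_kmany, eval_knost, eval_kcl, Function.update_of_ne,
    Function.update_self]

theorem eval_krel {κ T x y n : ℕ} (hκ : κ < n) (hT : T < n) (hx : x < n) (hy : y < n)
    (s : ℕ → V) : l.eval (.krel κ T x y n) s = l.krel (s κ) (s T) (s x) (s y) := by
  simp (disch := omega) only [Fm.krel, Lg.krel, Lg.eval, Lg.eval_and, Lg.eval_neg, Lg.eval_iff,
    eval_kgd, eval_empty, eval_app, Function.update_of_ne, Function.update_self]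

theorem eval_kimp {κ T x p n : ℕ} (hκ : κ < n) (hT : T < n) (hx : x < n) (hp : p < n)
    (s : ℕ → V) : l.eval (.kimp κ T x p n) s = l.kimp (s κ) (s T) (s x) (s p) := by
  simp (disch := omega) only [Fm.kimp, Lg.kimp, Lg.eval, Lg.eval_and, Lg.eval_neg, Lg.eval_or,
    Lg.eval_ex, eval_isOP, eval_kgd, eval_empty, eval_app, Function.update_of_ne,
    Function.update_self]

theorem eval_kcs {κ T x n : ℕ} (hκ : κ < n) (hT : T < n) (hx : x < n)
    (s : ℕ → V) : l.eval (.kcs κ T x n) s = l.kcs (s κ) (s T) (s x) := by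
  simp (disch := omega) only [Fm.kcs, Lg.kcs, Lg.eval, Lg.eval_and, Lg.eval_neg, eval_isFun,
    eval_kgd, eval_empty, eval_app, Function.update_of_ne, Function.update_self]

theorem eval_kgr {κ T p n : ℕ} (hκ : κ < n) (hT : T < n) (hp : p < n)
    (s : ℕ → V) : l.eval (.kgr κ T p n) s = l.kgr (s κ) (s T) (s p) := by
  simp (disch := omega) only [Fm.kgr, Lg.kgr, Lg.eval_ex, Lg.eval_and, eval_isFun, eval_isOP,
    eval_krel, Function.update_of_ne, Function.update_self]

end Pool.Agent.SymExt
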