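import Pool.Agent.Lib.MP_e6371f_lc.Ret2

/-!
# The closed set as a continuous image, in a model of set theory
-/

set_option linter.unusedSectionVars false
set_option linter.unusedVariables false
set_option linter.unusedSimpArgs false

universe u

namespace Pool.Agent.Lib.MP_e6371f_lc

open Pool.Agent.ZF Pool.Agent.Lib.MP_1929a6_lc Pool.Agent.SymExt Pool.Agent.Lib.MP_1ab623_gt

variable {M : Type} {E : M → M → Prop} {w κ T : M}

theorem emp_unique (hE : IsZF E) {x y : M} (hx : Emp E x) (hy : Emp E y) : x = y :=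
  hE.extensionality _ _ fun w => iff_of_false (hx w) (hy w)

namespace Facts

theorem good_mono (h : IsZFm E) (F : Facts E w κ T) {x i j : M} (hg : Good E T x j)
    (hij : E i j) : Good E T x i := by
  obtain ⟨s, hs, hsx, v, hv⟩ := hg
  obtain ⟨α, hα, hf⟩ := F.dom s hs
  have hj := (maps_mem h hf hv).1
  have hi : E i α := F.trs α hα i j hij hj
  obtain ⟨u, hu, _⟩ := hf.2 i hi
  exact ⟨s, hs, hsx, u, hu⟩

theorem good_congr (h : IsZFm E) (F : Facts E w κ T) {x x' α i : M} (hα : E α κ) (hi : E i α)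
    (ha : ∀ k v, E k α → Maps E x k v → Maps E x' k v) (hg : Good E T x i) : Good E T x' i := by
  obtain ⟨s, hs, hsx, v, hv⟩ := hg
  obtain ⟨s', hs', hss, j, hj, hf⟩ := F.res s hs i v hv
  refine ⟨s', hs', fun p hp => ?_, ?_⟩
  · obtain ⟨k, u, hk, hu, hpk⟩ := hf.1 p hp
    have hkα : E k α := by
      rcases (hj k).1 hk with h1 | rfl
      · exact F.trs α hα k i h1 hi
      · exact hi
    obtain ⟨q, hq, hqx⟩ := ha k u hkα ⟨p, hpk, hsx p (hss p hp)⟩
    rwa [pair_ext h.isZF hpk hq]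
  · obtain ⟨u, hu, _⟩ := hf.2 i ((hj i).2 (Or.inr rfl))
    exact ⟨u, hu⟩

theorem rel_cset (h : IsZFm E) (F : Facts E w κ T) {x y : M} (hy : IsFunction E y κ κ)
    (hr : Rel E κ T x y) : CSet E κ T y := by
  refine ⟨hy, fun i hi hg v hv => ?_⟩
  by_cases hx : Good E T x i
  · refine absurd ?_ hg
    obtain ⟨s, hs, hsx, u, hu⟩ := hx
    refine ⟨s, hs, fun p hp => ?_, u, hu⟩
    obtain ⟨α, hα, hf⟩ := F.dom s hs
    obtain ⟨k, v', hk, hv', hpk⟩ := hf.1 p hp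
    have hgk : Good E T x k := ⟨s, hs, hsx, v', p, hpk, hp⟩
    have hkκ : E k κ := F.om1.transitive k α hk hα
    obtain ⟨q, hq, hqy⟩ := ((hr k hkκ).1 hgk v').1 ⟨p, hpk, hsx p hp⟩
    rwa [pair_ext h.isZF hpk hq]
  · exact (hr i hi).2 hx v hv

theorem closed (h : IsZFm E) (F : Facts E w κ T) {C : M} (hC : ∀ x, E x C ↔ CSet E κ T x) :
    IsClosedSet E κ C := by
  refine ⟨fun x hx => ((hC x).1 hx).1, fun x hx hcl => (hC x).2 ⟨hx, fun i hi hg v hv => ?_⟩⟩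
  obtain ⟨j, hj, hij⟩ := F.lim i hi
  obtain ⟨y, hy, ha⟩ := hcl j hj
  obtain ⟨_, hy2⟩ := (hC y).1 hy
  refine hy2 i hi (fun hg' => hg ?_) v ((ha i v hij).1 hv)
  exact F.good_congr h hj hij (fun k u hk hku => (ha k u hk).2 hku) hg'

theorem image (h : IsZFm E) (F : Facts E w κ T) {C : M} (hC : ∀ x, E x C ↔ CSet E κ T x) :
    IsContinuousImage E κ C := by
  have hE := h.isZF
  obtain ⟨K, hK⟩ := exists_all h κ
  obtain ⟨f, hf⟩ := exists_graph h κ T
  have mf : ∀ x y, Maps E f x y ↔ IsFunction E x κ κ ∧ IsFunction E y κ κ ∧ Rel E κ T x y := by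
    intro x y
    constructor
    · rintro ⟨p, hp, hpf⟩
      obtain ⟨x', y', hp', h1⟩ := (hf p).1 hpf
      obtain ⟨rfl, rfl⟩ := pair_inj h hp hp'
      exact h1
    · intro h1
      obtain ⟨p, hp⟩ := exists_isPair hE x y
      exact ⟨p, hp, (hf p).2 ⟨x, y, hp, h1⟩⟩
  have key : ∀ x x' y y' i v, E i κ → (Good E T x i ↔ Good E T x' i) →
      (∀ v, Maps E x i v ↔ Maps E x' i v) → Rel E κ T x y → Rel E κ T x' y' →
      IsFunction E y' κ κ → Maps E y i v → Maps E y' i v := by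
    intro x x' y y' i v hi hg hxx hr hr' hy' hv
    by_cases hgx : Good E T x i
    · exact ((hr' i hi).1 (hg.1 hgx) v).1 ((hxx v).1 (((hr i hi).1 hgx v).2 hv))
    · obtain ⟨v', hv', _⟩ := hy'.2 i hi
      rw [emp_unique hE ((hr i hi).2 hgx v hv) ((hr' i hi).2 (fun hh => hgx (hg.2 hh)) v' hv')]
      exact hv'
  refine ⟨K, f, hK, ⟨fun p hp => ?_, fun x hx => ?_⟩, fun y hy => ?_, fun x y α hxy hα => ?_⟩
  · obtain ⟨x, y, hpp, hx, hy, hr⟩ := (hf p).1 hp
    exact ⟨x, y, (hK x).2 hx, (hC y).2 (F.rel_cset h hy hr), hpp⟩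
  · obtain ⟨y, hy, hr⟩ := exists_ret (T := T) h F.zero ((hK x).1 hx)
    refine ⟨y, (mf x y).2 ⟨(hK x).1 hx, hy, hr⟩, fun y' hy' => ?_⟩
    obtain ⟨_, hy1, hr'⟩ := (mf x y').1 hy'
    exact fun_ext h hy1 hy fun i v hi hv =>
      key x x y' y i v hi Iff.rfl (fun _ => Iff.rfl) hr' hr hy hv
  · have hy' := (hC y).1 hy
    exact ⟨y, (mf y y).2 ⟨hy'.1, hy'.1, fun i hi => ⟨fun _ v => Iff.rfl, hy'.2 i hi⟩⟩⟩
  · obtain ⟨hx, hy, hr⟩ := (mf x y).1 hxy
    refine ⟨α, hα, fun x' y' hxy' ha i v hi => ?_⟩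
    obtain ⟨hx', hy', hr'⟩ := (mf x' y').1 hxy'
    have hiκ : E i κ := F.om1.transitive i α hi hα
    have hg : Good E T x i ↔ Good E T x' i :=
      ⟨F.good_congr h hα hi fun k u hk hku => (ha k u hk).1 hku,
        F.good_congr h hα hi fun k u hk hku => (ha k u hk).2 hku⟩
    exact ⟨key x x' y y' i v hiκ hg (fun u => ha i u hi) hr hr' hy',
      key x' x y' y i v hiκ hg.symm (fun u => (ha i u hi).symm) hr' hr hy⟩

theorem emp_mem (h : IsZFm E) (F : Facts E w κ T) {z : M} (hz : Emp E z) : E z w :=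
  (F.om z).2 fun X h1 _ => h1 z hz

theorem main (h : IsZFm E) (F : Facts E w κ T) : ∃ C, IsClosedSet E κ C ∧
    IsContinuousImage E κ C ∧ ∀ X D, Sub E X C → AtMostKappaLessKappa E κ X →
      (∀ t, E t D ↔ E t C ∧ ¬ E t X) → ¬ IsPerfectOmegaOne E w κ D := by
  have hE := h.isZF
  obtain ⟨C, hC⟩ := exists_cset h κ T
  refine ⟨C, F.closed h hC, F.image h hC, fun X D hXC hX hD hP => ?_⟩
  obtain ⟨hP1, hP2⟩ := hP
  have hbr : ∀ x, E x D → Branch E κ T x := by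
    intro x hx
    have hxC := (hC x).1 ((hD x).1 hx).1
    refine ⟨hxC.1, fun i hi => ?_⟩
    by_contra hg
    obtain ⟨σ, hσ⟩ := hP2 x hx
    obtain ⟨a, ha, hinc, hcl⟩ := F.climb i hi
    obtain ⟨z, hzκ, hz⟩ := F.zero
    have hzw : E z w := F.emp_mem h hz
    obtain ⟨α, hα, _⟩ := ha.2 z hzw
    have hακ := (maps_mem h ha hα).2
    have hiα := hcl z α hz hα
    obtain ⟨y, hyD, hy⟩ := hσ.limit a ha hinc
    obtain ⟨hne, hag⟩ := hy z z x α hzw ⟨⟨fun p hp => absurd hp (hz p), fun t ht =>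
      absurd ht (hz t)⟩, fun p hp => absurd hp (hz p)⟩ (hσ.start z hz) hα
    have hyC := (hC y).1 ((hD y).1 hyD).1
    have hgy : ¬ Good E T y i := fun hgy => hg
      (F.good_congr h hακ hiα (fun k u hk hku => (hag k u hk).2 hku) hgy)
    refine hne (fun_ext h hxC.1 hyC.1 fun j v hj hv => ?_)
    rcases F.om1.linear i j hi hj with h1 | rfl | h1
    · have e1 := hxC.2 j hj (fun hh => hg (F.good_mono h hh h1)) v hv
      obtain ⟨v', hv', _⟩ := hyC.1.2 j hj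
      have e2 := hyC.2 j hj (fun hh => hgy (F.good_mono h hh h1)) v' hv'
      rw [emp_unique hE e1 e2]
      exact hv'
    · exact (hag i v hiα).1 hv
    · exact (hag j v (F.trs α hακ j i h1 hiα)).1 hv
  obtain ⟨x, hx, hxX⟩ := F.many X hX
  have hxD : E x D := (hD x).2 ⟨(hC x).2 ⟨hx.1, fun i hi hg => absurd (hx.2 i hi) hg⟩, hxX⟩
  obtain ⟨σ, hσ⟩ := hP2 x hxD
  exact F.nost D x σ hbr hxD hσ

end Facts

end Pool.Agent.Lib.MP_e6371f_lc
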