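import Pool.Agent.Lib.MP_e6371f_lc.Fus
import Pool.Agent.Lib.MP_e6371f_lc.Ret3

/-!
# The model of `ZFC`
-/

set_option linter.unusedSectionVars false
set_option linter.unusedVariables false
set_option linter.unusedSimpArgs false

namespace Pool.Agent.Lib.MP_e6371f_lc

open Pool.Agent.ZF Pool.Agent.Lib.MP_1929a6_lc Pool.Agent.SymExt Pool.Agent.Lib.MP_1ab623_gt

/-- the main theorem -/
theorem exists_ZFC_model : ∃ (M : Type) (E : M → M → Prop), IsZFC E ∧
    ∃ w κ C : M, IsOmega E w ∧ IsOmegaOne E w κ ∧ IsClosedSet E κ C ∧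
      IsContinuousImage E κ C ∧
      ∀ X D, Sub E X C → AtMostKappaLessKappa E κ X → (∀ t, E t D ↔ E t C ∧ ¬ E t X) →
        ¬ IsPerfectOmegaOne E w κ D := by
  obtain ⟨M, E, t, hE, _, h⟩ := exists_model (P := Kc) tvF
    (fun _ => Classical.arbitrary _) ⊤
  have hZ := hE.isZF
  have hC := h .choice (fun s => by
    rw [eval_choice]
    exact forced_choice ⊤) t
  have hT := h .kur (fun s => by
    rw [eval_kur]
    exact forced_kur ⊤) t
  rw [eval_choice] at hC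
  rw [eval_kur] at hT
  refine ⟨M, E, ⟨hZ, ?_⟩, ?_⟩
  · simp only [Lg.choice, prop_all, prop_imp, prop_and, prop_ex, prop_mem, prop_eq] at hC
    intro F h1 h2
    obtain ⟨C, h3⟩ := hC F ⟨h1, fun x y t h => h2 x y t h.1.1 h.1.2 h.2.1 h.2.2⟩
    refine ⟨C, fun x hx => ?_⟩
    obtain ⟨t, ht, ht'⟩ := h3 x hx
    exact ⟨t, ht, ht'⟩
  · obtain ⟨w, κ, T, F⟩ := kur_prop E hZ hT
    obtain ⟨C, h1, h2, h3⟩ := F.main hE
    exact ⟨w, κ, C, F.om, F.om1, h1, h2, h3⟩

end Pool.Agent.Lib.MP_e6371f_lc
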