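import Pool.Agent.Lib.MP_e6371f_lc.Strat

/-!
# The fusion argument: no strategy wins on a set of branches
-/

set_option linter.unusedSectionVars false
set_option linter.unusedVariables false
set_option linter.unusedSimpArgs false

namespace Pool.Agent.Lib.MP_e6371f_lc

open Pool.Agent.SymExt SN

/-- what is forced about the strategy -/
structure Sit (D σ : VN Kc) (q0 : Kc) : Prop where
  br : ∀ x, ∀ q ≤ q0, m x D q → lg.kbr (kp Kc) Tn x q
  val : ∀ n (b : ℕ → W), ∀ r ≤ q0, ∃ t ≤ r, ∃ y, m (op (sq n b) y) σ t ∧ m y D t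
  fin : ∀ b : ℕ → W, (∀ i j, i < j → b i < b j) → ∀ k n, k < n → ∀ y y', ∀ r ≤ q0,
    m (op (sq k b) y) σ r → m (op (sq n b) y') σ r →
    (∀ t ≤ r, ¬ e y y' t) ∧ lg.kag y y' (ow (b k)) r
  lim : ∀ b : ℕ → W, (∀ i j, i < j → b i < b j) → ∀ r ≤ q0, ∃ t ≤ r, ∃ y, m y D t ∧
    ∀ k x, ∀ u ≤ t, m (op (sq k b) x) σ u → lg.kag x y (ow (b k)) u

variable {D σ : VN Kc} {q0 : Kc}

/-- the states of the construction -/
structure St (D σ : VN Kc) (q0 : Kc) (n : ℕ) where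
  /-- condition -/
  q : Kc
  /-- moves -/
  b : ℕ → W
  /-- answer -/
  y : VN Kc
  /-- bookkeeping -/
  H : ℕ → ℕ → Lm
  le : q ≤ q0
  mono : ∀ i j, i < j → j < n → b i < b j
  below : ∀ i < n, b i < q.δ
  val : m (op (sq n b) y) σ q
  mem : m y D q
  book : ∀ k < n, ∀ j, H k j ∈ q.A

/-- one step -/
structure Nxt {n : ℕ} (s : St D σ q0 n) (s' : St D σ q0 (n + 1)) : Prop where
  le : s'.q ≤ s.q
  b : ∀ i < n, s'.b i = s.b i
  bn : s.q.δ ≤ s'.b n
  H : ∀ k < n, s'.H k = s.H k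
  Hn : ∀ a ∈ s.q.A, ∃ j, s'.H n j = a
  dif : ∃ c < s'.q.δ, ∃ u, m (op (ow c) (ow u)) s'.y s'.q ∧
    u ≠ s'.q.x (s'.H n.unpair.1 n.unpair.2) c

theorem step (S : Sit D σ q0) {n : ℕ} (s : St D σ q0 n) : ∃ s' : St D σ q0 (n + 1), Nxt s s' := by
  classical
  obtain ⟨ea, hea⟩ := s.q.cnt.exists_eq_range ⟨_, s.q.base⟩
  obtain ⟨H, hH⟩ : ∃ H, H = Function.update s.H n ea := ⟨_, rfl⟩
  have H1 : ∀ k < n, H k = s.H k := fun k hk => by rw [hH, Function.update_of_ne hk.ne]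
  have H2 : H n = ea := by rw [hH, Function.update_self]
  have H3 : ∀ k < n + 1, ∀ j, H k j ∈ s.q.A := by
    intro k hk j
    rcases Nat.lt_succ_iff_lt_or_eq.1 hk with h | rfl
    · rw [H1 k h]; exact s.book k h j
    · rw [H2, hea]; exact Set.mem_range_self j
  obtain ⟨l, hl⟩ : ∃ l, l = H n.unpair.1 n.unpair.2 := ⟨_, rfl⟩
  have hlA : l ∈ s.q.A := by
    rw [hl]
    exact H3 _ (Nat.lt_succ_of_le (Nat.unpair_left_le n)) _
  -- a move and an answer
  have move : ∀ α, s.q.δ ≤ α → ∀ r ≤ s.q, ∃ t ≤ r, ∃ y', m (op (sq (n + 1) (bb n s.b α)) y') σ t ∧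
      m y' D t ∧ (∀ u ≤ t, ¬ e s.y y' u) ∧ lg.kag s.y y' (ow α) t := by
    intro α hα r hr
    obtain ⟨t, ht, y', h1, h2⟩ := S.val (n + 1) (bb n s.b α) r (hr.trans s.le)
    have h3 := S.fin (bb n s.b α) (bb_mono s.mono fun i hi => (s.below i hi).trans_le hα) n (n + 1)
      (Nat.lt_succ_self n) s.y y' t (ht.trans (hr.trans s.le)) (by
        rw [sq_congr (n := n) (b' := s.b) fun i hi => bb_lt hi]
        exact RO.mono _ (ht.trans hr) s.val) h1
    rw [bb_self] at h3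
    exact ⟨t, ht, y', h1, h2, h3.1, h3.2⟩
  have build : ∀ (α : W) (t : Kc) (y' : VN Kc) (c u : W), s.q.δ ≤ α → t ≤ s.q →
      m (op (sq (n + 1) (bb n s.b α)) y') σ t → m y' D t → α < t.δ → c < t.δ →
      m (op (ow c) (ow u)) y' t → u ≠ t.x l c → ∃ s' : St D σ q0 (n + 1), Nxt s s' := by
    intro α t y' c u hα ht h1 h2 h3 h4 h5 h6
    refine ⟨⟨t, bb n s.b α, y', H, ht.trans s.le, fun i j hij _ => bb_mono s.mono
      (fun i hi => (s.below i hi).trans_le hα) i j hij, fun i hi => ?_, h1, h2,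
      fun k hk j => ht.2.1 (H3 k hk j)⟩, ht, fun i hi => bb_lt hi, ?_, H1, ?_, c, h4, u, h5, ?_⟩
    · rcases Nat.lt_succ_iff_lt_or_eq.1 hi with h | rfl
      · rw [bb_lt h]
        exact (s.below i h).trans_le ht.1
      · rw [bb_self]
        exact h3
    · change s.q.δ ≤ bb n s.b α n
      rw [bb_self]
      exact hα
    · intro a ha
      rw [hea] at ha
      obtain ⟨j, rfl⟩ := ha
      exact ⟨j, by change H n j = _; rw [H2]⟩
    · change u ≠ t.x (H n.unpair.1 n.unpair.2) c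
      rw [← hl]
      exact h6
  obtain ⟨t1, ht1, y1, h1, h2, h3, h4⟩ := move s.q.δ le_rfl s.q le_rfl
  have f0 : lg.isFun s.y (kp Kc) (kp Kc) s.q := (kbr_iff.1 (S.br s.y s.q s.le s.mem)).1
  have f1 : lg.isFun y1 (kp Kc) (kp Kc) t1 :=
    (kbr_iff.1 (S.br y1 t1 (ht1.trans s.le) h2)).1
  obtain ⟨t2, ht2, c, u, u1, h5, h6, h7⟩ := fun_ne (RO.mono _ ht1 f0) f1 (h3 t1 le_rfl)
  obtain ⟨t3, ht3, h8⟩ := t2.exists_height (max c s.q.δ)
  have hc3 : c < t3.δ := (le_max_left _ _).trans_lt h8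
  have hδ3 : s.q.δ < t3.δ := (le_max_right _ _).trans_lt h8
  have h3q : t3 ≤ s.q := ht3.trans (ht2.trans ht1)
  by_cases hu : u1 = t3.x l c
  · -- the old value is good
    have hu' : u ≠ t3.x l c := fun h => h7 (h.trans hu.symm)
    obtain ⟨t4, ht4, y2, g1, g2, g3, g4⟩ := move t3.δ hδ3.le t3 h3q
    obtain ⟨t5, ht5, h9⟩ := t4.exists_height t3.δ
    have h53 : t5 ≤ t3 := ht5.trans ht4
    have g5 : m (op (ow c) (ow u)) y2 t5 := by
      rw [kag_iff] at g4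
      exact (g4 (ow c) (ow u) t5 ht5 (m_ow_ow.2 hc3)).1 (RO.mono _ (h53.trans ht3) h5)
    refine build t3.δ t5 y2 c u hδ3.le (h53.trans h3q) (RO.mono _ ht5 g1) (RO.mono _ ht5 g2) h9
      (hc3.trans_le h53.1) g5 ?_
    rw [h53.2.2.1 l (h3q.2.1 hlA) c hc3]
    exact hu'
  · exact build s.q.δ t3 y1 c u1 le_rfl h3q (RO.mono _ (ht3.trans ht2) h1)
      (RO.mono _ (ht3.trans ht2) h2) hδ3 hc3 (RO.mono _ ht3 h6) hu

theorem contra (S : Sit D σ q0) (s0 : St D σ q0 0) : False := by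
  choose nxt hn using fun (n : ℕ) (s : St D σ q0 n) => step S s
  let s : ∀ n, St D σ q0 n := fun n => Nat.rec s0 (fun n s => nxt n s) n
  have hs : ∀ n, Nxt (s n) (s (n + 1)) := fun n => hn n (s n)
  have bst : ∀ i n, i < n → (s n).b i = (s (i + 1)).b i := by
    intro i n hin
    induction n, hin using Nat.le_induction with
    | base => rfl
    | succ n hn ih => rw [(hs n).b i hn]; exact ih
  have Hst : ∀ k n, k < n → (s n).H k = (s (k + 1)).H k := by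
    intro i n hin
    induction n, hin using Nat.le_induction with
    | base => rfl
    | succ n hn ih => rw [(hs n).H i hn]; exact ih
  obtain ⟨b, hb⟩ : ∃ b : ℕ → W, b = fun i => (s (i + 1)).b i := ⟨_, rfl⟩
  have hbn : ∀ n, ∀ i < n, (s n).b i = b i := fun n i hi => by rw [bst i n hi, hb]
  have bmono : ∀ i j, i < j → b i < b j := by
    intro i j hij
    rw [← hbn (j + 1) i (by omega), ← hbn (j + 1) j (by omega)]
    exact (s (j + 1)).mono i j hij (by omega)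
  obtain ⟨L, hL, hLA, hLδ⟩ := Kc.limit (fun n => (s n).q) fun n => (hs n).le
  obtain ⟨t, ht, y, hy, hk⟩ := S.lim b bmono L ((hL 0).trans (s 0).le)
  have hbr := kbr_iff.1 (S.br y t (ht.trans ((hL 0).trans (s 0).le)) hy)
  obtain ⟨t', ht', l, hl, hval⟩ := kgd_val ht (hbr.2 (ow L.δ) t le_rfl (m_ow_kp _ _))
  obtain ⟨k, hlk⟩ := hLA l hl
  obtain ⟨j, hj⟩ := (hs k).Hn l hlk
  obtain ⟨n, hn'⟩ : ∃ n, n = Nat.pair k j := ⟨_, rfl⟩
  have hkn : k ≤ n := by rw [hn']; exact Nat.left_le_pair k j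
  obtain ⟨c, hc, u, hu, hne⟩ := (hs n).dif
  have e1 : n.unpair.1 = k := by rw [hn', Nat.unpair_pair]
  have e2 : n.unpair.2 = j := by rw [hn', Nat.unpair_pair]
  rw [e1, e2, Hst k (n + 1) (by omega), hj] at hne
  have hln : l ∈ (s (n + 1)).q.A := by
    have := (s (n + 1)).book k (by omega) j
    rwa [Hst k (n + 1) (by omega), hj] at this
  have hLx : L.x l c = (s (n + 1)).q.x l c := (hL (n + 1)).2.2.1 l hln c hc
  have hcb : c < b (n + 1) := by
    rw [hb]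
    exact hc.trans_le (hs (n + 1)).bn
  have hval' : m (op (sq (n + 1) b) (s (n + 1)).y) σ t' := by
    rw [sq_congr (n := n + 1) (b' := (s (n + 1)).b) fun i hi => (hbn (n + 1) i hi).symm]
    exact RO.mono _ (ht'.trans (ht.trans (hL (n + 1)))) (s (n + 1)).val
  have hag := kag_iff.1 (hk (n + 1) (s (n + 1)).y t' ht' hval')
  have h1 : m (op (ow c) (ow u)) y t' := (hag (ow c) (ow u) t' le_rfl (m_ow_ow.2 hcb)).1
    (RO.mono _ (ht'.trans (ht.trans (hL (n + 1)))) hu)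
  have h2 := hval c (hc.trans_le (hL (n + 1)).1)
  have h3 := fun_unique hbr.1 ht' h1 h2
  rw [hLx] at h3
  exact hne (rig_ow _ _ _ h3)

theorem forced_knost (p : Kc) : lg.knost (om Kc) (kp Kc) Tn p := by
  simp only [Lg.knost, Lg.kst, ro_all, ro_imp, ro_and, ro_mem, ro_neg]
  rintro D x0 σ q _ ⟨hD, hx0, h0, h1, h2⟩
  obtain ⟨h0, h0'⟩ := kst0_iff.1 h0
  obtain ⟨r, hr, Z, hσ, hZ⟩ := h0 q le_rfl
  rw [kst1_iff] at h1
  rw [kst2_iff] at h2
  have S : Sit D σ r := by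
    refine ⟨fun x t ht hx => hD x t (ht.trans hr) hx, fun n b t ht => ?_,
      fun b hb k n hkn y y' t ht hy hy' => ?_, fun b hb t ht => ?_⟩
    · have h3 := hZ (on n) (sq n b) t ht (m_on_om n t) (isFun_sq n b t)
      obtain ⟨t1, ht1, y, hy⟩ := (isFun_iff.1 hσ).2.1 _ t ht h3 t le_rfl
      obtain ⟨t2, ht2, x', y', _, hy', he⟩ := (isFun_iff.1 hσ).1 _ t1 (ht1.trans ht) hy t1 le_rfl
      obtain ⟨_, h4⟩ := op_inj he
      exact ⟨t2, ht2.trans ht1, y, RO.mono _ ht2 hy, m_left (e_symm h4) hy'⟩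
    · exact h1 (sqw b) t (ht.trans hr) (isFun_sqw b t) (kinc_sqw hb t) (on k) (on n) (sq k b)
        (sq n b) y y' (ow (b k)) t le_rfl (m_on_on.2 hkn) (m_on_om n t) (kpos_sq k b t)
        (kpos_sq n b t) hy hy' (app_sqw b k t)
    · obtain ⟨t1, ht1, y, hy, h3⟩ := h2 (sqw b) t (ht.trans hr) (isFun_sqw b t) (kinc_sqw hb t)
        t le_rfl
      exact ⟨t1, ht1, y, hy, fun k x u hu hx => (h3 (on k) (sq k b) x (ow (b k)) u hu
        (m_on_om k u) (kpos_sq k b u) hx (app_sqw b k u)).2⟩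
  exact contra S ⟨r, fun _ => b0, x0, fun _ _ => ∅, le_rfl, fun i j _ hj => by omega,
    fun i hi => by omega, h0' _ r hr (empty_sq _ _), RO.mono _ hr hx0, fun k hk => by omega⟩

theorem forced_kur (p : Kc) : (lg : Lg (RO Kc) (VN Kc)).kur p := by
  simp only [Lg.kur, ro_ex, ro_and]
  intro q _
  exact ⟨q, le_rfl, om _, fun q1 _ => ⟨q1, le_rfl, kp _, fun q2 _ => ⟨q2, le_rfl, Tn,
    isOm_om _, forced_om1 Kc.closed _, forced_klim _, forced_ktr _, forced_kmany _,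
    forced_knost _, forced_kcl _⟩⟩⟩

end Pool.Agent.Lib.MP_e6371f_lc
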