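import Pool.Agent.Lib.MP_e6371f_lc.Om1

/-!
# Names for sequences of countable ordinals
-/

set_option linter.unusedSectionVars false
set_option linter.unusedVariables false
set_option linter.unusedSimpArgs false

namespace Pool.Agent.Lib.MP_e6371f_lc

open Pool.Agent.SymExt SN

variable {P : Type} [PartialOrder P] [OrderTop P]

/-- the name of a finite sequence -/
noncomputable def sq (n : ℕ) (b : ℕ → W) : VN P :=
  fnm (fun i : {i // i < n} => on i.1) (fun i => ow (b i.1))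

/-- the name of an infinite sequence -/
noncomputable def sqw (b : ℕ → W) : VN P := fnm on (fun n => ow (b n))

theorem sq_congr {n : ℕ} {b b' : ℕ → W} (h : ∀ i < n, b i = b' i) :
    (sq n b : VN P) = sq n b' := by
  unfold sq
  congr 1
  funext i
  rw [h i.1 i.2]

theorem isFun_sq (n : ℕ) (b : ℕ → W) (p : P) : lg.isFun (sq n b) (on n) (kp P) p := by
  refine isFun_fnm (fun i j q h => Subtype.ext (rig_on _ _ _ h)) (fun x q _ hx r hr => ?_)
    (fun i => m_on_on.2 i.2) (fun i => m_ow_kp _ _)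
  obtain ⟨s, hs, k, hk, he⟩ := m_on.1 hx r hr
  exact ⟨s, hs, ⟨k, hk⟩, he⟩

theorem isFun_sqw (b : ℕ → W) (p : P) : lg.isFun (sqw b) (om P) (kp P) p :=
  isFun_fnm rig_on (fun x q _ hx r hr => m_om.1 hx r hr) (fun i => m_on_om _ _)
    (fun i => m_ow_kp _ _)

theorem m_op_sqw {b : ℕ → W} {x y : VN P} {p : P} : m (op x y) (sqw b) p ↔
    ∀ q ≤ p, ∃ r ≤ q, ∃ i, e x (on i) r ∧ e y (ow (b i)) r := m_op_fnm

theorem app_sqw (b : ℕ → W) (n : ℕ) (p : P) : m (op (on n) (ow (b n))) (sqw b) p :=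
  m_op_sqw.2 fun q _ => ⟨q, le_rfl, n, e_refl _ _, e_refl _ _⟩

theorem sub_sq (n : ℕ) (b : ℕ → W) (p : P) : lg.sub (sq n b) (sqw b) p := by
  rw [sub_iff]
  intro z q _ hz
  unfold sq fnm at hz
  unfold sqw fnm
  rw [m_fm] at hz ⊢
  intro r hr
  obtain ⟨s, hs, i, hi⟩ := hz r hr
  exact ⟨s, hs, i.1, hi⟩

theorem empty_sq (b : ℕ → W) (p : P) : lg.empty (sq 0 b : VN P) p := by
  simp only [Lg.empty, ro_all, ro_neg, ro_mem]
  intro z q _ hz
  unfold sq fnm at hz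
  rw [m_fm] at hz
  obtain ⟨s, _, i, _⟩ := hz q le_rfl
  exact absurd i.2 (Nat.not_lt_zero _)

theorem kinc_iff {a : VN P} {p : P} : lg.kinc a p ↔ ∀ k l α β, ∀ q ≤ p, m k l q →
    m (op k α) a q → m (op l β) a q → m α β q := by
  simp only [Lg.kinc, ro_all, ro_imp, ro_and, ro_mem, app_iff, and_imp]

theorem kinc_sqw {b : ℕ → W} (hb : ∀ i j, i < j → b i < b j) (p : P) :
    lg.kinc (sqw b : VN P) p := by
  rw [kinc_iff]
  intro k l α β q _ hkl h1 h2
  refine RO.dense _ fun r hr => ?_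
  obtain ⟨s, hs, i, hi, hi'⟩ := m_op_sqw.1 h1 r hr
  obtain ⟨t, ht, j, hj, hj'⟩ := m_op_sqw.1 h2 s (hs.trans hr)
  have h3 : m (on i) (on j) t := m_left (RO.mono _ ht hi)
    (m_right hj (RO.mono _ (ht.trans (hs.trans hr)) hkl))
  exact ⟨t, ht.trans hs, m_left (e_symm (RO.mono _ ht hi'))
    (m_right (e_symm hj') (m_ow_ow.2 (hb i j (m_on_on.1 h3))))⟩

theorem kpos_iff {κ a n s : VN P} {p : P} : lg.kpos κ a n s p ↔
    lg.isFun s n κ p ∧ lg.sub s a p := by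
  simp only [Lg.kpos, ro_and]

theorem kpos_sq (n : ℕ) (b : ℕ → W) (p : P) : lg.kpos (kp P) (sqw b) (on n) (sq n b) p :=
  kpos_iff.2 ⟨isFun_sq n b p, sub_sq n b p⟩

theorem forced_kcl (p : P) : lg.kcl (om P) (kp P) p := by
  simp only [Lg.kcl, ro_all, ro_imp, ro_ex, ro_and, ro_mem, app_iff]
  intro x q _ hx r hr
  obtain ⟨s, hs, v, he⟩ := m_kp.1 hx r hr
  let b : ℕ → W := fun n => nxn (n + 1) v
  refine ⟨s, hs, sqw b, isFun_sqw b s, kinc_sqw (fun i j hij => nxn_lt (by omega) v) s,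
    fun z α t ht h => ?_⟩
  obtain ⟨hz, hα⟩ := h
  refine RO.dense _ fun u hu => ?_
  obtain ⟨u1, hu1, i, hi, hi'⟩ := m_op_sqw.1 hα u hu
  have h1 : e (on i) (on 0) u1 := e_trans (e_symm hi) (empty_iff.1 (RO.mono _ (hu1.trans hu) hz))
  have h2 : i = 0 := rig_on _ _ _ h1
  subst h2
  refine ⟨u1, hu1, m_left (e_symm (RO.mono _ (hu1.trans (hu.trans ht)) he))
    (m_right (e_symm hi') (m_ow_ow.2 ?_))⟩
  exact lt_nx v

end Pool.Agent.Lib.MP_e6371f_lc
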