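import Pool.Agent.Lib.MP_e6371f_lc.Cond
import Pool.Agent.Lib.MP_e6371f_lc.Seq

/-!
# The generic tree and its branches
-/

set_option linter.unusedSectionVars false
set_option linter.unusedVariables false
set_option linter.unusedSimpArgs false

namespace Pool.Agent.Lib.MP_e6371f_lc

open Pool.Agent.SymExt SN

section gen

variable {P : Type} [PartialOrder P] [OrderTop P]

theorem isFun_congr_fn {f f' A B : VN P} {p : P} (h : e f f' p) (hf : lg.isFun f A B p) :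
    lg.isFun f' A B p := by
  rw [isFun_iff] at hf ⊢
  refine ⟨fun z q hq hz => ?_, fun x q hq hx r hr => ?_, fun x y y' q hq h1 h2 => ?_⟩
  · exact hf.1 z q hq (m_right (e_symm (RO.mono _ hq h)) hz)
  · obtain ⟨s, hs, y, hy⟩ := hf.2.1 x q hq hx r hr
    exact ⟨s, hs, y, m_right (RO.mono _ (hs.trans (hr.trans hq)) h) hy⟩
  · have h3 := e_symm (RO.mono _ hq h)
    exact hf.2.2 x y y' q hq (m_right h3 h1) (m_right h3 h2)

theorem isFun_dense {f A B : VN P} {p : P} (h : ∀ q ≤ p, ∃ r ≤ q, lg.isFun f A B r) :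
    lg.isFun f A B p := RO.dense _ h

theorem empty_congr {x y : VN P} {p : P} (h : e x y p) (hx : lg.empty x p) : lg.empty y p :=
  empty_iff.2 (e_trans (e_symm h) (empty_iff.1 hx))

theorem adj_ow {i j : VN P} {v : W} {p : P} (h : e i (ow v) p) (hj : e j (ow (nx v)) p) :
    lg.adj j i i p := by
  simp only [Lg.adj, ro_all, ro_iff, ro_or, ro_mem, ro_eq]
  intro t q hq
  have h1 := RO.mono _ hq h
  have h2 := RO.mono _ hq hj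
  constructor
  · intro ht r hr
    obtain ⟨s, hs, u, hu, he⟩ := m_ow.1 (m_right h2 ht) r hr
    refine ⟨s, hs, ?_⟩
    have h3 := RO.mono _ (hs.trans hr) h1
    rcases (lt_nx_iff.1 hu).lt_or_eq with h4 | h4
    · left
      exact m_left (e_symm he) (m_right (e_symm h3) (m_ow_ow.2 h4))
    · right
      subst h4
      exact e_trans he (e_symm h3)
  · intro ht
    refine m_right (e_symm h2) (m_ow.2 fun r hr => ?_)
    obtain ⟨s, hs, h4 | h4⟩ := ht r hr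
    · obtain ⟨s1, hs1, u, hu, he⟩ := m_ow.1 (m_right (RO.mono _ (hs.trans hr) h1) h4) s le_rfl
      exact ⟨s1, hs1.trans hs, u, hu.trans (lt_nx v), he⟩
    · exact ⟨s, hs, v, lt_nx v, e_trans h4 (RO.mono _ (hs.trans hr) h1)⟩

/-- the name of a function on a countable ordinal -/
noncomputable def nd (α : W) (s : W → W) : VN P :=
  fnm (fun i : {i // i < α} => ow i.1) (fun i => ow (s i.1))

theorem isFun_nd (α : W) (s : W → W) (p : P) : lg.isFun (nd α s) (ow α) (kp P) p := by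
  refine isFun_fnm (fun i j q h => Subtype.ext (rig_ow _ _ _ h)) (fun x q _ hx r hr => ?_)
    (fun i => m_ow_ow.2 i.2) (fun i => m_ow_kp _ _)
  obtain ⟨t, ht, k, hk, he⟩ := m_ow.1 hx r hr
  exact ⟨t, ht, ⟨k, hk⟩, he⟩

theorem m_op_nd {α : W} {s : W → W} {x y : VN P} {p : P} : m (op x y) (nd α s) p ↔
    ∀ q ≤ p, ∃ r ≤ q, ∃ i < α, e x (ow i) r ∧ e y (ow (s i)) r := by
  unfold nd
  rw [m_op_fnm]
  refine forall_congr' fun q => forall_congr' fun _ => exists_congr fun r =>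
    and_congr_right fun _ => ?_
  exact ⟨fun ⟨i, h⟩ => ⟨i.1, i.2, h⟩, fun ⟨i, hi, h⟩ => ⟨⟨i, hi⟩, h⟩⟩

theorem m_nd {α : W} {s : W → W} {z : VN P} {p : P} : m z (nd α s) p ↔
    ∀ q ≤ p, ∃ r ≤ q, ∃ i < α, e z (op (ow i) (ow (s i))) r := by
  unfold nd fnm
  rw [m_fm]
  refine forall_congr' fun q => forall_congr' fun _ => exists_congr fun r =>
    and_congr_right fun _ => ?_
  exact ⟨fun ⟨i, h⟩ => ⟨i.1, i.2, h⟩, fun ⟨i, hi, h⟩ => ⟨⟨i, hi⟩, h⟩⟩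

theorem app_nd {α : W} {s : W → W} {i : W} (hi : i < α) (p : P) :
    m (op (ow i) (ow (s i))) (nd α s) p :=
  m_op_nd.2 fun q _ => ⟨q, le_rfl, i, hi, e_refl _ _, e_refl _ _⟩

theorem kgd_iff {T x i : VN P} {p : P} : lg.kgd T x i p ↔ ∀ q ≤ p, ∃ r ≤ q, ∃ s, m s T r ∧
    lg.sub s x r ∧ ∀ r' ≤ r, ∃ t ≤ r', ∃ v, m (op i v) s t := by
  simp only [Lg.kgd, ro_ex, ro_and, ro_mem, app_iff]

theorem kbr_iff {κ T x : VN P} {p : P} : lg.kbr κ T x p ↔ lg.isFun x κ κ p ∧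
    ∀ i, ∀ q ≤ p, m i κ q → lg.kgd T x i q := by
  simp only [Lg.kbr, ro_and, ro_all, ro_imp, ro_mem]

end gen

theorem xb_exists (l : Lm) : ∃ x : VN Kc, ∀ z p, m z x p ↔ ∀ q ≤ p, ∃ r ≤ q, ∃ iv : W × W,
    (l ∈ r.A ∧ iv.1 < r.δ ∧ r.x l iv.1 = iv.2) ∧ e z (op (ow iv.1) (ow iv.2)) r :=
  exists_nn (fun iv : W × W => op (ow iv.1) (ow iv.2))
    (fun iv (p : Kc) => l ∈ p.A ∧ iv.1 < p.δ ∧ p.x l iv.1 = iv.2) (by
      rintro ⟨i, v⟩ p q hqp ⟨h1, h2, h3⟩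
      exact ⟨hqp.2.1 h1, h2.trans_le hqp.1, (hqp.2.2.1 l h1 i h2).trans h3⟩)

/-- the name of a branch -/
noncomputable def xb (l : Lm) : VN Kc := (xb_exists l).choose

theorem m_xb {l : Lm} {z : VN Kc} {p : Kc} : m z (xb l) p ↔ ∀ q ≤ p, ∃ r ≤ q, ∃ iv : W × W,
    (l ∈ r.A ∧ iv.1 < r.δ ∧ r.x l iv.1 = iv.2) ∧ e z (op (ow iv.1) (ow iv.2)) r :=
  (xb_exists l).choose_spec z p

theorem m_op_xb {l : Lm} {x y : VN Kc} {p : Kc} : m (op x y) (xb l) p ↔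
    ∀ q ≤ p, ∃ r ≤ q, ∃ i, l ∈ r.A ∧ i < r.δ ∧ e x (ow i) r ∧ e y (ow (r.x l i)) r := by
  rw [m_xb]
  refine forall_congr' fun q => forall_congr' fun _ => exists_congr fun r =>
    and_congr_right fun _ => ?_
  constructor
  · rintro ⟨⟨i, v⟩, ⟨h1, h2, h3⟩, h4⟩
    obtain ⟨h5, h6⟩ := op_inj h4
    dsimp only at h2 h3 h5 h6
    exact ⟨i, h1, h2, h5, by rw [h3]; exact h6⟩
  · rintro ⟨i, h1, h2, h3, h4⟩
    exact ⟨(i, r.x l i), ⟨h1, h2, rfl⟩, op_congr h3 h4⟩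

theorem xb_val {l : Lm} {p : Kc} (hl : l ∈ p.A) {i : W} (hi : i < p.δ) :
    m (op (ow i) (ow (p.x l i))) (xb l) p := by
  rw [m_op_xb]
  intro q hq
  refine ⟨q, le_rfl, i, hq.2.1 hl, hi.trans_le hq.1, e_refl _ _, ?_⟩
  rw [hq.2.2.1 l hl i hi]
  exact e_refl _ _

theorem Kc.exists_both (p : Kc) (l : Lm) (i : W) : ∃ q ≤ p, l ∈ q.A ∧ i < q.δ := by
  obtain ⟨q, hq, _, hl⟩ := p.addIdx l
  obtain ⟨r, hr, hi⟩ := q.exists_height i
  exact ⟨r, hr.trans hq, hr.2.1 hl, hi⟩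

theorem isFun_xb (l : Lm) (p : Kc) : lg.isFun (xb l) (kp Kc) (kp Kc) p := by
  rw [isFun_iff]
  refine ⟨fun z q _ hz r hr => ?_, fun x q _ hx r hr => ?_, fun x y y' q _ h1 h2 => ?_⟩
  · obtain ⟨s, hs, ⟨i, v⟩, _, h⟩ := m_xb.1 hz r hr
    exact ⟨s, hs, ow i, ow v, m_ow_kp _ _, m_ow_kp _ _, h⟩
  · obtain ⟨s, hs, i, hi⟩ := m_kp.1 hx r hr
    obtain ⟨t, ht, hl, hit⟩ := s.exists_both l i
    exact ⟨t, ht.trans hs, ow (t.x l i), m_left (op_congr (e_symm (RO.mono _ ht hi))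
      (e_refl _ _)) (xb_val hl hit)⟩
  · refine RO.dense _ fun r hr => ?_
    obtain ⟨s, hs, i, hl, hi, h3, h4⟩ := m_op_xb.1 h1 r hr
    obtain ⟨t, ht, j, _, hj, h5, h6⟩ := m_op_xb.1 h2 s (hs.trans hr)
    have hij : i = j := rig_ow _ _ _ (e_trans (e_symm (RO.mono _ ht h3)) h5)
    subst hij
    rw [ht.2.2.1 l hl i hi] at h6
    exact ⟨t, ht.trans hs, e_trans (RO.mono _ ht h4) (e_symm h6)⟩

theorem xb_ne {l k : Lm} (h : l ≠ k) (p : Kc) : ¬ e (xb l) (xb k) p := by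
  intro he
  obtain ⟨q, hq, i, hl, hk, hi, hne⟩ := p.split h
  have h1 := m_right (RO.mono _ hq he) (xb_val hl hi)
  obtain ⟨r, hr, j, hkr, hj, h2, h3⟩ := m_op_xb.1 h1 q le_rfl
  have hij : i = j := rig_ow _ _ _ h2
  subst hij
  rw [hr.2.2.1 k hk i hi] at h3
  exact hne (rig_ow _ _ _ h3)

theorem Tn_exists : ∃ x : VN Kc, ∀ z p, m z x p ↔ ∀ q ≤ p, ∃ r ≤ q, ∃ a : W × (W → W),
    (∃ b ∈ r.A, a.1 ≤ r.δ ∧ ∀ i < a.1, r.x b i = a.2 i) ∧ e z (nd a.1 a.2) r :=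
  exists_nn (fun a : W × (W → W) => nd a.1 a.2)
    (fun a (p : Kc) => ∃ b ∈ p.A, a.1 ≤ p.δ ∧ ∀ i < a.1, p.x b i = a.2 i) (by
      rintro ⟨α, s⟩ p q hqp ⟨b, hb, h1, h2⟩
      exact ⟨b, hqp.2.1 hb, h1.trans hqp.1, fun i hi =>
        (hqp.2.2.1 b hb i (hi.trans_le h1)).trans (h2 i hi)⟩)

/-- the name of the tree -/
noncomputable def Tn : VN Kc := Tn_exists.choose

theorem m_Tn {z : VN Kc} {p : Kc} : m z Tn p ↔ ∀ q ≤ p, ∃ r ≤ q, ∃ a : W × (W → W),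
    (∃ b ∈ r.A, a.1 ≤ r.δ ∧ ∀ i < a.1, r.x b i = a.2 i) ∧ e z (nd a.1 a.2) r :=
  Tn_exists.choose_spec z p

theorem kbr_xb (l : Lm) (p : Kc) : lg.kbr (kp Kc) Tn (xb l) p := by
  rw [kbr_iff]
  refine ⟨isFun_xb l p, fun x q _ hx => kgd_iff.2 fun r hr => ?_⟩
  obtain ⟨s, hs, i, hi⟩ := m_kp.1 hx r hr
  obtain ⟨t, ht, hl, hit⟩ := s.exists_both l i
  refine ⟨t, ht.trans hs, nd t.δ (t.x l), m_Tn.2 fun u hu => ?_, sub_iff.2 fun z u hu hz => ?_,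
    fun u hu => ⟨u, le_rfl, ow (t.x l i), ?_⟩⟩
  · exact ⟨u, le_rfl, (t.δ, t.x l), ⟨l, hu.2.1 hl, hu.1, fun j hj => hu.2.2.1 l hl j hj⟩,
      e_refl _ _⟩
  · refine RO.dense _ fun v hv => ?_
    obtain ⟨v1, hv1, j, hj, hz1⟩ := m_nd.1 hz v hv
    exact ⟨v1, hv1, m_left (e_symm hz1) (RO.mono _ (hv1.trans (hv.trans hu)) (xb_val hl hj))⟩
  · exact m_left (op_congr (e_symm (RO.mono _ (hu.trans ht) hi)) (e_refl _ _)) (app_nd hit u)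

/-- the branches restricted to the height of the condition -/
theorem kgd_val {q r : Kc} (hr : r ≤ q) {y : VN Kc} (h : lg.kgd Tn y (ow q.δ) r) :
    ∃ t ≤ r, ∃ l ∈ q.A, ∀ i < q.δ, m (op (ow i) (ow (q.x l i))) y t := by
  obtain ⟨t1, ht1, s, hs, hsub, happ⟩ := kgd_iff.1 h r le_rfl
  obtain ⟨t2, ht2, v, hv⟩ := happ t1 le_rfl
  obtain ⟨t3, ht3, ⟨α, f⟩, ⟨b, hb, h1, h2⟩, he⟩ := m_Tn.1 (RO.mono _ ht2 hs) t2 le_rfl
  dsimp only at h1 h2 he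
  obtain ⟨t4, ht4, j, hj, h3, _⟩ := m_op_nd.1 (m_right he (RO.mono _ ht3 hv)) t3 le_rfl
  have hjd : q.δ = j := rig_ow _ _ _ h3
  have h3q : t3 ≤ q := ht3.trans (ht2.trans (ht1.trans hr))
  obtain ⟨l, hl, h4⟩ := h3q.2.2.2 b hb
  refine ⟨t3, ht3.trans (ht2.trans ht1), l, hl, fun i hi => ?_⟩
  have hiα : i < α := hi.trans (hjd ▸ hj)
  have h5 : m (op (ow i) (ow (f i))) s t3 := m_right (e_symm he) (app_nd hiα t3)
  rw [← h4 i hi, h2 i hiα]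
  exact (sub_iff.1 hsub) _ t3 (ht3.trans ht2) h5

theorem forced_ktr (p : Kc) : lg.ktr (kp Kc) Tn p := by
  simp only [Lg.ktr, ro_all, ro_imp, ro_and, ro_ex, ro_mem, ro_neg, app_iff]
  intro s q _ hs
  refine ⟨fun r hr => ?_, fun x v r hr hxv => ⟨fun t ht hempty => ?_, fun t ht => ?_⟩⟩
  · obtain ⟨t, ht, ⟨α, f⟩, _, he⟩ := m_Tn.1 hs r hr
    exact ⟨t, ht, ow α, m_ow_kp _ _, isFun_congr_fn (e_symm he) (isFun_nd α f t)⟩
  · obtain ⟨t1, ht1, ⟨α, f⟩, ⟨b, hb, h1, h2⟩, he⟩ := m_Tn.1 hs t (ht.trans hr)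
    dsimp only at h1 h2 he
    obtain ⟨t2, ht2, i, hi, h3, h4⟩ := m_op_nd.1
      (m_right he (RO.mono _ (ht1.trans ht) hxv)) t1 le_rfl
    have h5 := empty_ow.1 (empty_congr h4 (RO.mono _ (ht2.trans ht1) hempty))
    rw [← h2 i hi] at h5
    exact t1.ne b hb i (hi.trans_le h1) h5
  · obtain ⟨t1, ht1, ⟨α, f⟩, ⟨b, hb, h1, h2⟩, he⟩ := m_Tn.1 hs t (ht.trans hr)
    dsimp only at h1 h2 he
    obtain ⟨t2, ht2, i, hi, h3, h4⟩ := m_op_nd.1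
      (m_right he (RO.mono _ (ht1.trans ht) hxv)) t1 le_rfl
    have hni : nx i ≤ α := nx_le hi
    refine ⟨t2, ht2.trans ht1, nd (nx i) f, m_Tn.2 fun u hu => ⟨u, le_rfl, (nx i, f),
      ⟨b, (hu.trans ht2).2.1 hb, (hni.trans h1).trans (hu.trans ht2).1, fun j hj => ?_⟩,
      e_refl _ _⟩, sub_iff.2 fun z u hu hz => ?_, fun u hu => ⟨u, le_rfl, ow (nx i),
      adj_ow (RO.mono _ hu h3) (e_refl _ _), isFun_nd _ _ _⟩⟩
    · rw [(hu.trans ht2).2.2.1 b hb j (hj.trans_le (hni.trans h1))]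
      exact h2 j (hj.trans_le hni)
    · refine m_right (e_symm (RO.mono _ (hu.trans ht2) he)) (m_nd.2 fun v hv => ?_)
      obtain ⟨v1, hv1, j, hj, hz1⟩ := m_nd.1 hz v hv
      exact ⟨v1, hv1, j, hj.trans_le hni, hz1⟩

end Pool.Agent.Lib.MP_e6371f_lc
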