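import Pool.Agent.Lib.MP_e6371f_lc.Compat
import Pool.Agent.Lib.MP_e6371f_lc.Names

/-!
# The generic tree has many branches
-/

set_option linter.unusedSectionVars false
set_option linter.unusedVariables false
set_option linter.unusedSimpArgs false

namespace Pool.Agent.Lib.MP_e6371f_lc

open Pool.Agent.SymExt SN

theorem exists_en (a : W) : ∃ f : ℕ → W, ∀ i < a, ∃ n, f n = i := by
  obtain ⟨f, hf⟩ := ((W_cnt a).insert b0).exists_eq_range ⟨b0, Set.mem_insert _ _⟩
  refine ⟨f, fun i hi => ?_⟩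
  have : i ∈ insert b0 (Set.Iio a) := Set.mem_insert_of_mem _ hi
  rw [hf] at this
  exact this

/-- enumeration -/
noncomputable def en (a : W) : ℕ → W := (exists_en a).choose

theorem en_spec {a i : W} (h : i < a) : ∃ n, en a n = i := (exists_en a).choose_spec i h

section gen

variable {P : Type} [PartialOrder P] [OrderTop P]

theorem app_ow {f : VN P} {a : W} {B : VN P} {p : P} (hf : lg.isFun f (ow a) B p) {i : W}
    (hi : i < a) : ∀ q ≤ p, ∃ r ≤ q, ∃ y, m (op (ow i) y) f r ∧ m y B r := by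
  rw [isFun_iff] at hf
  intro q hq
  obtain ⟨r, hr, y, hy⟩ := hf.2.1 (ow i) q hq (m_ow_ow.2 hi) q le_rfl
  obtain ⟨s, hs, a, b, ha, hb, he⟩ := hf.1 _ r (hr.trans hq) hy r le_rfl
  obtain ⟨_, h2⟩ := op_inj he
  exact ⟨s, hs.trans hr, y, RO.mono _ hs hy, m_left (e_symm h2) hb⟩

theorem fun_eq {f f' : VN P} {a : W} {B B' : VN P} {p : P} (hf : lg.isFun f (ow a) B p)
    (hf' : lg.isFun f' (ow a) B' p)
    (h : ∀ i < a, ∃ v : W, m (op (ow i) (ow v)) f p ∧ m (op (ow i) (ow v)) f' p) : e f f' p := by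
  have key : ∀ {f f' B : VN P}, lg.isFun f (ow a) B p →
      (∀ i < a, ∃ v : W, m (op (ow i) (ow v)) f p ∧ m (op (ow i) (ow v)) f' p) →
      ∀ q ≤ p, ∀ z, m z f q → m z f' q := by
    intro f f' B hf h q hq z hz
    refine RO.dense _ fun r hr => ?_
    obtain ⟨s, hs, x, y, hx, _, he⟩ := (isFun_iff.1 hf).1 z q hq hz r hr
    obtain ⟨t, ht, i, hi, hxi⟩ := m_ow.1 hx s le_rfl
    obtain ⟨v, h1, h2⟩ := h i hi
    have htq : t ≤ q := ht.trans (hs.trans hr)
    have he' := RO.mono _ ht he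
    have h3 : m (op x y) f t := m_left he' (RO.mono _ htq hz)
    have h4 : m (op (ow i) y) f t := m_left (op_congr hxi (e_refl _ _)) h3
    have h5 := fun_unique hf (htq.trans hq) h4 (RO.mono _ (htq.trans hq) h1)
    have h6 : e z (op (ow i) (ow v)) t := e_trans he' (op_congr hxi h5)
    exact ⟨t, ht.trans hs, m_left (e_symm h6)
      (RO.mono _ (htq.trans hq) h2)⟩
  refine e_ext fun q hq z => ⟨key hf h q hq z, key hf' (fun i hi => ?_) q hq z⟩
  obtain ⟨v, h1, h2⟩ := h i hi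
  exact ⟨v, h2, h1⟩

/-- countable functions are in the ground model -/
theorem decide_fun (closed : ∀ c : ℕ → P, (∀ n, c (n + 1) ≤ c n) → ∃ d, ∀ n, d ≤ c n)
    {f : VN P} {a : W} {p : P} (hf : lg.isFun f (ow a) (kp P) p) :
    ∃ q ≤ p, ∃ c : ℕ → W, ∀ n, en a n < a → m (op (ow (en a n)) (ow (c n))) f q :=
  decide_seq closed (fun n (v : W) s => en a n < a → m (op (ow (en a n)) (ow v)) f s)
    (fun n v {s t} hts h h' => RO.mono _ hts (h h')) p
    (fun n t ht => by
      by_cases hn : en a n < a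
      · obtain ⟨t1, ht1, y, hy, hyk⟩ := app_ow hf hn t ht
        obtain ⟨t2, ht2, v, hv⟩ := m_kp.1 hyk t1 le_rfl
        exact ⟨t2, ht2.trans ht1, v, fun _ => m_left (op_congr (e_refl _ _) hv)
          (RO.mono _ ht2 hy)⟩
      · exact ⟨t, le_rfl, b0, fun h => absurd h hn⟩)

end gen

theorem Lm_card : Cardinal.continuum < Cardinal.mk Lm := by
  have h : Cardinal.mk (ℕ → Bool) = Cardinal.continuum := by simp
  rw [Cardinal.mk_set, h]
  exact Cardinal.cantor _

theorem forced_kmany (p : Kc) : lg.kmany (kp Kc) Tn p := by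
  simp only [Lg.kmany, ro_all, ro_imp, ro_and, ro_ex, ro_mem, ro_neg]
  rintro X Q g q _ ⟨hQ, hg⟩ r hr
  by_contra hc
  push Not at hc
  rw [kij_iff] at hg
  -- all branches are in `X`
  have hX : ∀ l, m (xb l) X r := fun l => RO.dense _ fun t ht => by
    obtain ⟨u, hu, h⟩ := hc t ht (xb l) (kbr_xb l t)
    exact ⟨u, hu, h⟩
  have data : ∀ l : Lm, ∃ (t : Kc) (s : VN Kc) (a : W) (c : ℕ → W), t ≤ r ∧
      m (op (xb l) s) g t ∧ lg.isFun s (ow a) (kp Kc) t ∧
      ∀ n, en a n < a → m (op (ow (en a n)) (ow (c n))) s t := by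
    intro l
    obtain ⟨t1, ht1, s, hs⟩ := (isFun_iff.1 hg.1).2.1 (xb l) r hr (hX l) r le_rfl
    obtain ⟨t2, ht2, x, y, _, hy, he⟩ := (isFun_iff.1 hg.1).1 _ t1 (ht1.trans hr) hs t1 le_rfl
    obtain ⟨_, h2⟩ := op_inj he
    have hsQ : m s Q t2 := m_left (e_symm h2) hy
    obtain ⟨t3, ht3, α, hα, hf⟩ := hQ s t2 (ht2.trans (ht1.trans hr)) hsQ t2 le_rfl
    obtain ⟨t4, ht4, a, ha⟩ := m_kp.1 hα t3 le_rfl
    have hf' := isFun_congr_dom ha (RO.mono _ ht4 hf)
    obtain ⟨t5, ht5, c, hc'⟩ := decide_fun Kc.closed hf'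
    have h51 : t5 ≤ t1 := ht5.trans (ht4.trans (ht3.trans ht2))
    exact ⟨t5, s, a, c, h51.trans ht1, RO.mono _ h51 hs, RO.mono _ ht5 hf', hc'⟩
  choose t s a c ht hts hfun hval using data
  have hA : ∀ l, ∃ f : ℕ → Lm, (t l).A = Set.range f := fun l =>
    (t l).cnt.exists_eq_range ⟨_, (t l).base⟩
  choose eA heA using hA
  obtain ⟨i, j, hij, hag⟩ := exists_compat (I := Lm) (A := Lm)
    (R := W × (ℕ → ℕ → W) × (ℕ → W) × W × (ℕ → W)) Lm_card
    (prod_cont W_cont (prod_cont (seq_cont (seq_cont W_cont)) (prod_cont (seq_cont W_cont)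
      (prod_cont W_cont (seq_cont W_cont))))) ∅ (fun l => (t l).A) (fun l => (t l).cnt)
    (fun l => (t l).base) (fun l b => ((t l).δ, fun n k => (t l).x (eA l n) (en (t l).δ k),
      fun k => (t l).x b (en (t l).δ k), a l, c l))
  have hbase := hag ∅ (t i).base (t j).base
  simp only [Prod.mk.injEq] at hbase
  obtain ⟨hδ, hrow, _, ha, hc'⟩ := hbase
  obtain ⟨u, hu, hu'⟩ := Kc.compat (t i) (t j) hδ (fun b hb => by
    rw [heA i] at hb
    obtain ⟨n, rfl⟩ := hb
    refine ⟨eA j n, by rw [heA j]; exact Set.mem_range_self n, fun k hk => ?_⟩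
    obtain ⟨k', rfl⟩ := en_spec hk
    have := congrFun (congrFun hrow n) k'
    rw [← hδ] at this
    exact this) (fun b hb => by
    rw [heA j] at hb
    obtain ⟨n, rfl⟩ := hb
    refine ⟨eA i n, by rw [heA i]; exact Set.mem_range_self n, fun k hk => ?_⟩
    obtain ⟨k', rfl⟩ := en_spec hk
    have := congrFun (congrFun hrow n) k'
    rw [← hδ] at this
    exact this.symm) (fun b hb hb' k hk => by
    obtain ⟨k', rfl⟩ := en_spec hk
    have h1 := hag b hb hb'
    simp only [Prod.mk.injEq] at h1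
    have := congrFun h1.2.2.1 k'
    rw [← hδ] at this
    exact this)
  have hs : e (s i) (s j) u := by
    refine fun_eq (a := a i) (RO.mono _ hu (hfun i))
      (by rw [ha]; exact RO.mono _ hu' (hfun j)) fun k hk => ?_
    obtain ⟨n, rfl⟩ := en_spec hk
    refine ⟨c i n, RO.mono _ hu (hval i n hk), ?_⟩
    rw [hc', ha]
    rw [ha] at hk
    exact RO.mono _ hu' (hval j n hk)
  have h1 : m (op (xb i) (s j)) g u :=
    m_left (op_congr (e_refl _ _) hs) (RO.mono _ hu (hts i))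
  exact xb_ne hij u (hg.2 _ _ _ u (hu.trans ((ht i).trans hr)) h1 (RO.mono _ hu' (hts j)))

end Pool.Agent.Lib.MP_e6371f_lc
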