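import Pool.Agent.SymExt.Top.TopNotions

/-!
# Trees of height the first uncountable ordinal and games, evaluated in an arbitrary logic
-/

set_option linter.unusedSectionVars false
set_option linter.unusedVariables false
set_option linter.unusedSimpArgs false

universe u v

namespace Pool.Agent.SymExt

namespace Lg

variable {Ω : Type u} {V : Type v} (l : Lg Ω V)

/-- transitive -/
def trs (x : V) : Ω := l.all fun y => l.all fun z => l.imp (l.and (l.mem z y) (l.mem y x)) (l.mem z x)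

/-- injection -/
def kij (f S T : V) : Ω :=
  l.and (l.isFun f S T) (l.all fun x => l.all fun x' => l.all fun y =>
    l.imp (l.and (l.app f x y) (l.app f x' y)) (l.eq x x'))

/-- no surjection from `w` -/
def kun (w X : V) : Ω := l.neg (l.ex fun u => l.and (l.isFun u w X)
  (l.all fun x => l.imp (l.mem x X) (l.ex fun n => l.app u n x)))

/-- the first uncountable ordinal -/
def om1 (w κ : V) : Ω :=
  l.and (l.trs κ) (l.and (l.all fun z => l.imp (l.mem z κ) (l.trs z))
    (l.and (l.all fun i => l.all fun j => l.imp (l.and (l.mem i κ) (l.mem j κ))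
      (l.or (l.mem i j) (l.or (l.eq i j) (l.mem j i))))
    (l.and (l.all fun α => l.imp (l.mem α κ) (l.ex fun f => l.kij f α w)) (l.kun w κ))))

/-- limit -/
def klim (κ : V) : Ω :=
  l.and (l.all fun i => l.imp (l.mem i κ) (l.ex fun j => l.and (l.mem j κ) (l.mem i j)))
    (l.ex fun z => l.and (l.mem z κ) (l.empty z))

/-- tree -/
def ktr (κ T : V) : Ω := l.all fun s => l.imp (l.mem s T)
  (l.and (l.ex fun α => l.and (l.mem α κ) (l.isFun s α κ))
    (l.all fun i => l.all fun v => l.imp (l.app s i v) (l.and (l.neg (l.empty v))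
      (l.ex fun s' => l.and (l.mem s' T) (l.and (l.sub s' s)
        (l.ex fun j => l.and (l.adj j i i) (l.isFun s' j κ)))))))

/-- an initial segment of `x` beyond `i` is in `T` -/
def kgd (T x i : V) : Ω := l.ex fun s => l.and (l.mem s T) (l.and (l.sub s x) (l.ex fun v => l.app s i v))

/-- branch -/
def kbr (κ T x : V) : Ω := l.and (l.isFun x κ κ) (l.all fun i => l.imp (l.mem i κ) (l.kgd T x i))

/-- many branches -/
def kmany (κ T : V) : Ω := l.all fun X => l.all fun Q => l.all fun g => l.imp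
  (l.and (l.all fun s => l.imp (l.mem s Q) (l.ex fun α => l.and (l.mem α κ) (l.isFun s α κ)))
    (l.kij g X Q)) (l.ex fun x => l.and (l.kbr κ T x) (l.neg (l.mem x X)))

/-- same values on `α` -/
def kag (x y α : V) : Ω := l.all fun i => l.all fun v => l.imp (l.mem i α)
  (l.iff (l.app x i v) (l.app y i v))

/-- increasing -/
def kinc (a : V) : Ω := l.all fun m => l.all fun n => l.all fun α => l.all fun β =>
  l.imp (l.and (l.mem m n) (l.and (l.app a m α) (l.app a n β))) (l.mem α β)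

/-- position -/
def kpos (κ a n s : V) : Ω := l.and (l.isFun s n κ) (l.sub s a)

/-- first clauses of the strategy -/
def kst0 (w κ D x0 σ : V) : Ω :=
  l.and (l.ex fun Z => l.and (l.isFun σ Z D) (l.all fun n => l.all fun s =>
      l.imp (l.and (l.mem n w) (l.isFun s n κ)) (l.mem s Z)))
    (l.all fun s => l.imp (l.empty s) (l.app σ s x0))

/-- finite rounds -/
def kst1 (w κ D σ : V) : Ω :=
  l.all fun a => l.imp (l.and (l.isFun a w κ) (l.kinc a))
    (l.all fun m => l.all fun n => l.all fun s => l.all fun s' => l.all fun x => l.all fun x' =>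
      l.all fun α => l.imp (l.and (l.mem m n) (l.and (l.mem n w) (l.and (l.kpos κ a m s)
        (l.and (l.kpos κ a n s') (l.and (l.app σ s x) (l.and (l.app σ s' x') (l.app a m α)))))))
        (l.and (l.neg (l.eq x x')) (l.kag x x' α)))

/-- round `ω` -/
def kst2 (w κ D σ : V) : Ω :=
  l.all fun a => l.imp (l.and (l.isFun a w κ) (l.kinc a))
    (l.ex fun y => l.and (l.mem y D) (l.all fun m => l.all fun s => l.all fun x => l.all fun α =>
      l.imp (l.and (l.mem m w) (l.and (l.kpos κ a m s) (l.and (l.app σ s x) (l.app a m α))))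
        (l.and (l.neg (l.eq x y)) (l.kag x y α))))

/-- winning strategy -/
def kst (w κ D x0 σ : V) : Ω :=
  l.and (l.kst0 w κ D x0 σ) (l.and (l.kst1 w κ D σ) (l.kst2 w κ D σ))

/-- no strategies on sets of branches -/
def knost (w κ T : V) : Ω := l.all fun D => l.all fun x0 => l.all fun σ => l.neg
  (l.and (l.all fun x => l.imp (l.mem x D) (l.kbr κ T x)) (l.and (l.mem x0 D)
    (l.kst w κ D x0 σ)))

/-- increasing sequences above any point -/
def kcl (w κ : V) : Ω := l.all fun i => l.imp (l.mem i κ) (l.ex fun a => l.and (l.isFun a w κ)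
  (l.and (l.kinc a) (l.all fun z => l.all fun α => l.imp (l.and (l.empty z) (l.app a z α))
    (l.mem i α))))

/-- the sentence -/
def kur : Ω :=
  l.ex fun w => l.ex fun κ => l.ex fun T => l.and (l.isOm w) (l.and (l.om1 w κ)
    (l.and (l.klim κ) (l.and (l.ktr κ T) (l.and (l.kmany κ T) (l.and (l.knost w κ T)
      (l.kcl w κ))))))

/-- the retraction -/
def krel (κ T x y : V) : Ω := l.all fun i => l.imp (l.mem i κ)
  (l.and (l.imp (l.kgd T x i) (l.all fun v => l.iff (l.app x i v) (l.app y i v)))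
    (l.imp (l.neg (l.kgd T x i)) (l.all fun v => l.imp (l.app y i v) (l.empty v))))

/-- the pairs in the image of `x` -/
def kimp (κ T x p : V) : Ω := l.ex fun i => l.ex fun v => l.and (l.isOP p i v)
  (l.and (l.mem i κ) (l.or (l.and (l.kgd T x i) (l.app x i v))
    (l.and (l.neg (l.kgd T x i)) (l.empty v))))

/-- the closed set -/
def kcs (κ T x : V) : Ω := l.and (l.isFun x κ κ) (l.all fun i => l.imp (l.mem i κ)
  (l.imp (l.neg (l.kgd T x i)) (l.all fun v => l.imp (l.app x i v) (l.empty v))))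

/-- the pairs in the graph of the retraction -/
def kgr (κ T p : V) : Ω := l.ex fun x => l.ex fun y => l.and (l.isOP p x y)
  (l.and (l.isFun x κ κ) (l.and (l.isFun y κ κ) (l.krel κ T x y)))

end Lg

namespace Fm

/-- transitive -/
def trs (x n : ℕ) : Fm := .all n (.all (n + 1) (.imp (.and (.mem (n + 1) n) (.mem n x))
  (.mem (n + 1) x)))

/-- injection -/
def kij (f S T n : ℕ) : Fm :=
  .and (.isFun f S T n) (.all n (.all (n + 1) (.all (n + 2)
    (.imp (.and (.app f n (n + 2) (n + 3)) (.app f (n + 1) (n + 2) (n + 3)))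
      (.eq n (n + 1))))))

/-- no surjection -/
def kun (w X n : ℕ) : Fm := .neg (.ex n (.and (.isFun n w X (n + 1))
  (.all (n + 1) (.imp (.mem (n + 1) X) (.ex (n + 2) (.app n (n + 2) (n + 1) (n + 3)))))))

/-- first uncountable ordinal -/
def om1 (w κ n : ℕ) : Fm :=
  .and (.trs κ n) (.and (.all n (.imp (.mem n κ) (.trs n (n + 1))))
    (.and (.all n (.all (n + 1) (.imp (.and (.mem n κ) (.mem (n + 1) κ))
      (.or (.mem n (n + 1)) (.or (.eq n (n + 1)) (.mem (n + 1) n))))))
    (.and (.all n (.imp (.mem n κ) (.ex (n + 1) (.kij (n + 1) n w (n + 2))))) (.kun w κ n))))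

/-- limit -/
def klim (κ n : ℕ) : Fm :=
  .and (.all n (.imp (.mem n κ) (.ex (n + 1) (.and (.mem (n + 1) κ) (.mem n (n + 1))))))
    (.ex n (.and (.mem n κ) (.empty n (n + 1))))

/-- tree -/
def ktr (κ T n : ℕ) : Fm := .all n (.imp (.mem n T)
  (.and (.ex (n + 1) (.and (.mem (n + 1) κ) (.isFun n (n + 1) κ (n + 2))))
    (.all (n + 1) (.all (n + 2) (.imp (.app n (n + 1) (n + 2) (n + 3))
      (.and (.neg (.empty (n + 2) (n + 3)))
      (.ex (n + 3) (.and (.mem (n + 3) T) (.and (.sub (n + 3) n (n + 4))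
        (.ex (n + 4) (.and (.adj (n + 4) (n + 1) (n + 1) (n + 5))
          (.isFun (n + 3) (n + 4) κ (n + 5)))))))))))))

/-- good -/
def kgd (T x i n : ℕ) : Fm := .ex n (.and (.mem n T) (.and (.sub n x (n + 1))
  (.ex (n + 1) (.app n i (n + 1) (n + 2)))))

/-- branch -/
def kbr (κ T x n : ℕ) : Fm := .and (.isFun x κ κ n) (.all n (.imp (.mem n κ) (.kgd T x n (n + 1))))

/-- many -/
def kmany (κ T n : ℕ) : Fm := .all n (.all (n + 1) (.all (n + 2) (.imp
  (.and (.all (n + 3) (.imp (.mem (n + 3) (n + 1)) (.ex (n + 4) (.and (.mem (n + 4) κ)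
    (.isFun (n + 3) (n + 4) κ (n + 5))))))
    (.kij (n + 2) n (n + 1) (n + 3))) (.ex (n + 3) (.and (.kbr κ T (n + 3) (n + 4))
      (.neg (.mem (n + 3) n)))))))

/-- same values -/
def kag (x y α n : ℕ) : Fm := .all n (.all (n + 1) (.imp (.mem n α)
  (.iff (.app x n (n + 1) (n + 2)) (.app y n (n + 1) (n + 2)))))

/-- increasing -/
def kinc (a n : ℕ) : Fm := .all n (.all (n + 1) (.all (n + 2) (.all (n + 3)
  (.imp (.and (.mem n (n + 1)) (.and (.app a n (n + 2) (n + 4)) (.app a (n + 1) (n + 3) (n + 4))))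
    (.mem (n + 2) (n + 3))))))

/-- position -/
def kpos (κ a m s n : ℕ) : Fm := .and (.isFun s m κ n) (.sub s a n)

/-- first clauses -/
def kst0 (w κ D x0 σ n : ℕ) : Fm :=
  .and (.ex n (.and (.isFun σ n D (n + 1)) (.all (n + 1) (.all (n + 2)
      (.imp (.and (.mem (n + 1) w) (.isFun (n + 2) (n + 1) κ (n + 3))) (.mem (n + 2) n))))))
    (.all n (.imp (.empty n (n + 1)) (.app σ n x0 (n + 1))))

/-- finite rounds -/
def kst1 (w κ D σ n : ℕ) : Fm :=
  .all n (.imp (.and (.isFun n w κ (n + 1)) (.kinc n (n + 1)))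
    (.all (n + 1) (.all (n + 2) (.all (n + 3) (.all (n + 4) (.all (n + 5) (.all (n + 6)
      (.all (n + 7) (.imp (.and (.mem (n + 1) (n + 2)) (.and (.mem (n + 2) w)
        (.and (.kpos κ n (n + 1) (n + 3) (n + 8)) (.and (.kpos κ n (n + 2) (n + 4) (n + 8))
        (.and (.app σ (n + 3) (n + 5) (n + 8)) (.and (.app σ (n + 4) (n + 6) (n + 8))
          (.app n (n + 1) (n + 7) (n + 8))))))))
        (.and (.neg (.eq (n + 5) (n + 6))) (.kag (n + 5) (n + 6) (n + 7) (n + 8))))))))))))

/-- round `ω` -/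
def kst2 (w κ D σ n : ℕ) : Fm :=
  .all n (.imp (.and (.isFun n w κ (n + 1)) (.kinc n (n + 1)))
    (.ex (n + 1) (.and (.mem (n + 1) D) (.all (n + 2) (.all (n + 3) (.all (n + 4) (.all (n + 5)
      (.imp (.and (.mem (n + 2) w) (.and (.kpos κ n (n + 2) (n + 3) (n + 6))
        (.and (.app σ (n + 3) (n + 4) (n + 6)) (.app n (n + 2) (n + 5) (n + 6)))))
        (.and (.neg (.eq (n + 4) (n + 1))) (.kag (n + 4) (n + 1) (n + 5) (n + 6)))))))))))

/-- winning strategy -/
def kst (w κ D x0 σ n : ℕ) : Fm :=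
  .and (.kst0 w κ D x0 σ n) (.and (.kst1 w κ D σ n) (.kst2 w κ D σ n))

/-- no strategies -/
def knost (w κ T n : ℕ) : Fm := .all n (.all (n + 1) (.all (n + 2) (.neg
  (.and (.all (n + 3) (.imp (.mem (n + 3) n) (.kbr κ T (n + 3) (n + 4))))
    (.and (.mem (n + 1) n) (.kst w κ n (n + 1) (n + 2) (n + 3)))))))

/-- increasing sequences -/
def kcl (w κ n : ℕ) : Fm := .all n (.imp (.mem n κ) (.ex (n + 1) (.and (.isFun (n + 1) w κ (n + 2))
  (.and (.kinc (n + 1) (n + 2)) (.all (n + 2) (.all (n + 3)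
    (.imp (.and (.empty (n + 2) (n + 4)) (.app (n + 1) (n + 2) (n + 3) (n + 4)))
      (.mem n (n + 3)))))))))

/-- the sentence -/
def kur : Fm :=
  .ex 0 (.ex 1 (.ex 2 (.and (.isOm 0 3) (.and (.om1 0 1 3) (.and (.klim 1 3) (.and (.ktr 1 2 3)
    (.and (.kmany 1 2 3) (.and (.knost 0 1 2 3) (.kcl 0 1 3)))))))))

/-- the retraction -/
def krel (κ T x y n : ℕ) : Fm := .all n (.imp (.mem n κ)
  (.and (.imp (.kgd T x n (n + 1)) (.all (n + 1) (.iff (.app x n (n + 1) (n + 2))
    (.app y n (n + 1) (n + 2)))))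
    (.imp (.neg (.kgd T x n (n + 1))) (.all (n + 1) (.imp (.app y n (n + 1) (n + 2))
      (.empty (n + 1) (n + 2)))))))

/-- the pairs in the image of `x` -/
def kimp (κ T x p n : ℕ) : Fm := .ex n (.ex (n + 1) (.and (.isOP p n (n + 1) (n + 2))
  (.and (.mem n κ) (.or (.and (.kgd T x n (n + 2)) (.app x n (n + 1) (n + 2)))
    (.and (.neg (.kgd T x n (n + 2))) (.empty (n + 1) (n + 2)))))))

/-- the closed set -/
def kcs (κ T x n : ℕ) : Fm := .and (.isFun x κ κ n) (.all n (.imp (.mem n κ)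
  (.imp (.neg (.kgd T x n (n + 1))) (.all (n + 1) (.imp (.app x n (n + 1) (n + 2))
    (.empty (n + 1) (n + 2)))))))

/-- the graph -/
def kgr (κ T p n : ℕ) : Fm := .ex n (.ex (n + 1) (.and (.isOP p n (n + 1) (n + 2))
  (.and (.isFun n κ κ (n + 2)) (.and (.isFun (n + 1) κ κ (n + 2)) (.krel κ T n (n + 1) (n + 2))))))

end Fm

end Pool.Agent.SymExt
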