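import Pool.Agent.Lib.MP_e6371f_lc.W
import Pool.Agent.Lib.MP_e6371f_lc.Notions
import Pool.Agent.SymExt.Top.GT

/-!
# Names for countable ordinals
-/

set_option linter.unusedSectionVars false
set_option linter.unusedVariables false
set_option linter.unusedSimpArgs false

namespace Pool.Agent.Lib.MP_e6371f_lc

open Pool.Agent.SymExt SN

/-- the ordinals as sets -/
noncomputable def oP : W → PSet.{0} :=
  (wellFounded_lt (α := W)).fix fun w ih => PSet.mk {v // v < w} fun v => ih v v.2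

theorem oP_eq (w : W) : oP w = PSet.mk {v // v < w} fun v => oP v.1 :=
  (wellFounded_lt (α := W)).fix_eq _ w

theorem oP_mem_of {a b : W} (h : a < b) : oP a ∈ oP b := by
  rw [oP_eq b]
  exact PSet.Mem.mk (fun v : {v // v < b} => oP v.1) ⟨a, h⟩

theorem oP_inj {a b : W} (h : PSet.Equiv (oP a) (oP b)) : a = b := by
  rcases lt_trichotomy a b with h1 | h1 | h1
  · exact absurd ((PSet.Mem.congr_right h).2 (oP_mem_of h1)) (PSet.mem_irrefl _)
  · exact h1
  · exact absurd ((PSet.Mem.congr_right h).1 (oP_mem_of h1)) (PSet.mem_irrefl _)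

variable {P : Type} [PartialOrder P] [OrderTop P]

/-- the name of an ordinal -/
noncomputable def ow (w : W) : VN P := ck (oP w)

variable (P) in
/-- the name of the first uncountable ordinal -/
noncomputable def kp : VN P := ck (PSet.mk W oP)

theorem rig_ow : Rig (P := P) ow := fun i j p h => oP_inj (e_ck.1 h)

theorem m_ow {x : VN P} {w : W} {p : P} : m x (ow w) p ↔
    ∀ q ≤ p, ∃ r ≤ q, ∃ v < w, e x (ow v) r := by
  unfold ow
  rw [m_ck, oP_eq w]
  refine forall_congr' fun q => forall_congr' fun _ => exists_congr fun r =>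
    and_congr_right fun _ => ?_
  constructor
  · rintro ⟨i, h⟩
    exact ⟨i.1, i.2, h⟩
  · rintro ⟨v, hv, h⟩
    exact ⟨⟨v, hv⟩, h⟩

theorem m_kp {x : VN P} {p : P} : m x (kp P) p ↔ ∀ q ≤ p, ∃ r ≤ q, ∃ v, e x (ow v) r := by
  unfold kp
  rw [m_ck]
  exact Iff.rfl

theorem m_ow_kp (w : W) (p : P) : m (ow w) (kp P) p :=
  m_kp.2 fun q _ => ⟨q, le_rfl, w, e_refl _ _⟩

theorem m_ow_ow {a b : W} {p : P} : m (ow a) (ow b : VN P) p ↔ a < b := by
  rw [m_ow]
  constructor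
  · intro h
    obtain ⟨r, _, k, hk, he⟩ := h p le_rfl
    rwa [rig_ow a k r he]
  · intro h q _
    exact ⟨q, le_rfl, a, h, e_refl _ _⟩

theorem empty_ow {v : W} {p : P} : lg.empty (ow v : VN P) p ↔ v = b0 := by
  simp only [Lg.empty, ro_all, ro_neg, ro_mem]
  constructor
  · intro h
    by_contra hv
    exact h (ow b0) p le_rfl (m_ow_ow.2 (lt_of_le_of_ne (b0_le v) (Ne.symm hv)))
  · rintro rfl z q _ hz
    obtain ⟨r, _, v, hv, _⟩ := m_ow.1 hz q le_rfl
    exact not_lt_b0 v hv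

theorem trs_iff {x : VN P} {p : P} : lg.trs x p ↔ ∀ y z, ∀ q ≤ p, m z y q → m y x q → m z x q := by
  simp only [Lg.trs, ro_all, ro_imp, ro_and, ro_mem, and_imp]

theorem trs_ow (w : W) (p : P) : lg.trs (ow w : VN P) p := by
  rw [trs_iff]
  intro y z q _ hz hy
  refine RO.dense _ fun r hr => ?_
  obtain ⟨s, hs, v, hv, he⟩ := m_ow.1 hy r hr
  obtain ⟨t, ht, u, hu, he'⟩ := m_ow.1 (m_right he (RO.mono _ (hs.trans hr) hz)) s le_rfl
  exact ⟨t, ht.trans hs, m_left (e_symm he') (m_ow_ow.2 (hu.trans hv))⟩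

theorem trs_kp (p : P) : lg.trs (kp P) p := by
  rw [trs_iff]
  intro y z q _ hz hy
  refine RO.dense _ fun r hr => ?_
  obtain ⟨s, hs, v, he⟩ := m_kp.1 hy r hr
  obtain ⟨t, ht, u, hu, he'⟩ := m_ow.1 (m_right he (RO.mono _ (hs.trans hr) hz)) s le_rfl
  exact ⟨t, ht.trans hs, m_left (e_symm he') (m_ow_kp _ _)⟩

theorem trs_congr {x y : VN P} {p : P} (h : e x y p) (hx : lg.trs x p) : lg.trs y p := by
  rw [trs_iff] at hx ⊢
  intro a b q hq h1 h2
  have h3 := RO.mono _ hq h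
  exact m_right h3 (hx a b q hq h1 (m_right (e_symm h3) h2))

theorem isFun_congr_dom {f A A' B : VN P} {p : P} (h : e A A' p) (hf : lg.isFun f A B p) :
    lg.isFun f A' B p := by
  rw [isFun_iff] at hf ⊢
  refine ⟨fun z q hq hz r hr => ?_, fun x q hq hx r hr => ?_, hf.2.2⟩
  · obtain ⟨s, hs, x, y, h1, h2, h3⟩ := hf.1 z q hq hz r hr
    exact ⟨s, hs, x, y, m_right (RO.mono _ (hs.trans (hr.trans hq)) h) h1, h2, h3⟩
  · exact hf.2.1 x q hq (m_right (e_symm (RO.mono _ hq h)) hx) r hr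

theorem kij_iff {f A B : VN P} {p : P} : lg.kij f A B p ↔ lg.isFun f A B p ∧
    ∀ x x' y, ∀ q ≤ p, m (op x y) f q → m (op x' y) f q → e x x' q := by
  simp only [Lg.kij, ro_and, ro_all, ro_imp, ro_eq, app_iff, and_imp]

/-- countable ordinals are countable -/
theorem exists_kij (w : W) (p : P) : ∃ f : VN P, lg.kij f (ow w) (om P) p := by
  obtain ⟨en, hen⟩ := Set.countable_iff_exists_injOn.1 (W_cnt w)
  let y : {v // v < w} → VN P := fun v => ow v.1
  have hy : Rig (P := P) y := fun i j q h => Subtype.ext (rig_ow _ _ _ h)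
  let z : {v // v < w} → VN P := fun v => on (en v.1)
  refine ⟨fnm y z, kij_iff.2 ⟨isFun_fnm hy (fun x q _ hx r hr => ?_) (fun i => m_ow_ow.2 i.2)
    (fun i => m_on_om _ _), fun x x' u q _ h h' => RO.dense _ fun r hr => ?_⟩⟩
  · obtain ⟨s, hs, v, hv, he⟩ := m_ow.1 hx r hr
    exact ⟨s, hs, ⟨v, hv⟩, he⟩
  · obtain ⟨s, hs, i, hi, hi'⟩ := m_op_fnm.1 h r hr
    obtain ⟨t, ht, j, hj, hj'⟩ := m_op_fnm.1 h' s (hs.trans hr)
    have h1 : en i.1 = en j.1 := rig_on _ _ t (e_trans (e_symm (RO.mono _ ht hi')) hj')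
    have h2 : i = j := Subtype.ext (hen i.2 j.2 h1)
    subst h2
    exact ⟨t, ht.trans hs, e_trans (RO.mono _ ht hi) (e_symm hj)⟩

theorem forced_kun (closed : ∀ c : ℕ → P, (∀ n, c (n + 1) ≤ c n) → ∃ d, ∀ n, d ≤ c n) (p : P) :
    lg.kun (om P) (kp P) p := by
  simp only [Lg.kun, ro_neg, ro_ex, ro_and, ro_all, ro_imp, ro_mem, app_iff]
  intro q _ h
  obtain ⟨r, hr, u, hu, hs⟩ := h q le_rfl
  obtain ⟨s, hsr, f, hf⟩ := decide_seq closed
    (fun n (v : W) s => m (op (on n) (ow v)) u s) (fun n v {s t} hts h => RO.mono _ hts h) r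
    (fun n t ht => by
      obtain ⟨t1, ht1, y, hy, hyk⟩ := app_on hu n t ht
      obtain ⟨t2, ht2, v, hv⟩ := m_kp.1 hyk t1 le_rfl
      exact ⟨t2, ht2.trans ht1, v, m_left (op_congr (e_refl _ _) hv) (RO.mono _ ht2 hy)⟩)
  obtain ⟨v, hv⟩ := W_bdd (Set.countable_range f)
  obtain ⟨t, ht, n, hn⟩ := hs (ow v) s hsr (m_ow_kp _ _) s le_rfl
  obtain ⟨hn1, _⟩ := arg_on hu (ht.trans hsr) hn
  obtain ⟨t1, ht1, k, hk⟩ := hn1 t le_rfl
  have h1 : m (op (on k) (ow v)) u t1 := m_left (op_congr hk (e_refl _ _)) (RO.mono _ ht1 hn)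
  have h2 := fun_unique hu (ht1.trans (ht.trans hsr)) h1 (RO.mono _ (ht1.trans ht) (hf k))
  have h3 := rig_ow _ _ _ h2
  exact absurd (hv (f k) ⟨k, rfl⟩) (by rw [← h3]; exact lt_irrefl _)

theorem forced_om1 (closed : ∀ c : ℕ → P, (∀ n, c (n + 1) ≤ c n) → ∃ d, ∀ n, d ≤ c n) (p : P) :
    lg.om1 (om P) (kp P) p := by
  simp only [Lg.om1, ro_and, ro_all, ro_imp, ro_mem, ro_or, ro_eq, ro_ex]
  refine ⟨trs_kp p, fun z q hq hz => ?_, fun x y q hq h r hr => ?_, fun z q hq hz r hr => ?_,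
    forced_kun closed p⟩
  · refine RO.dense _ fun r hr => ?_
    obtain ⟨s, hs, v, he⟩ := m_kp.1 hz r hr
    exact ⟨s, hs, trs_congr (e_symm he) (trs_ow v s)⟩
  · obtain ⟨s, hs, a, ha⟩ := m_kp.1 h.1 r hr
    obtain ⟨t, ht, b, hb⟩ := m_kp.1 h.2 s (hs.trans hr)
    have ha' := RO.mono _ ht ha
    refine ⟨t, ht.trans hs, ?_⟩
    rcases lt_trichotomy a b with hab | hab | hab
    · left
      exact m_left (e_symm ha') (m_right (e_symm hb) (m_ow_ow.2 hab))
    · subst hab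
      right
      intro u hu
      exact ⟨u, le_rfl, Or.inl (RO.mono _ hu (e_trans ha' (e_symm hb)))⟩
    · right
      intro u hu
      exact ⟨u, le_rfl, Or.inr (RO.mono _ hu
        (m_left (e_symm hb) (m_right (e_symm ha') (m_ow_ow.2 hab))))⟩
  · obtain ⟨s, hs, v, he⟩ := m_kp.1 hz r hr
    obtain ⟨f, hf⟩ := exists_kij v s
    refine ⟨s, hs, f, ?_⟩
    rw [kij_iff] at hf ⊢
    exact ⟨isFun_congr_dom (e_symm he) hf.1, hf.2⟩

theorem forced_klim (p : P) : lg.klim (kp P) p := by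
  simp only [Lg.klim, ro_and, ro_all, ro_imp, ro_mem, ro_ex]
  refine ⟨fun x q hq hx r hr => ?_, fun q hq => ⟨q, le_rfl, ow b0, m_ow_kp _ _, empty_ow.2 rfl⟩⟩
  obtain ⟨s, hs, v, he⟩ := m_kp.1 hx r hr
  exact ⟨s, hs, ow (nx v), m_ow_kp _ _, m_left (e_symm he) (m_ow_ow.2 (lt_nx v))⟩

end Pool.Agent.Lib.MP_e6371f_lc
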