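import Pool.Agent.Lib.MP_1ab623_gt.Statement

/-!
# Definitions for the statement: closed sets and games in a model of `ZFC`

All notions are written out in terms of the membership relation `E` of the model.  Ordered pairs,
functions and natural numbers are those of `Pool.Agent.Lib.MP_1929a6_lc.Statement`; the axioms of
`ZFC` are those of `Pool.Agent.Lib.MP_1ab623_gt.Statement`.  In all definitions `w` is the set of
natural numbers of the model.
-/

universe u

namespace Pool.Agent.Lib.MP_e6371f_lc

open Pool.Agent.ZF Pool.Agent.Lib.MP_1929a6_lc Pool.Agent.Lib.MP_1ab623_gt

variable {M : Type u} (E : M → M → Prop)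

/-- `κ` is the first uncountable ordinal (a regular uncountable cardinal): it is a nonempty
transitive set, it is linearly ordered by the membership relation, each of its elements has an
injection to `w`, and there is no surjection from `w` to `κ`. -/
structure IsOmegaOne (w κ : M) : Prop where
  nonempty : ∃ x, E x κ
  transitive : ∀ x y, E x y → E y κ → E x κ
  linear : ∀ x y, E x κ → E y κ → E x y ∨ x = y ∨ E y x
  countable : ∀ α, E α κ → ∃ f, IsInjection E f α w
  uncountable : ¬ ∃ f, IsFunction E f w κ ∧ ∀ x, E x κ → ∃ n, Maps E f n x

/-- The functions `x` and `y` have the same values at all elements of `α` (an ordinal is the set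
of the smaller ones). -/
def AgreeBelow (x y α : M) : Prop := ∀ i v, E i α → (Maps E x i v ↔ Maps E y i v)

/-- `C` is a closed subset of the space of all functions from `κ` to `κ` with the bounded
topology: a function `x` is in `C` if for all `α < κ` it agrees below `α` with an element
of `C`. -/
structure IsClosedSet (κ C : M) : Prop where
  subset : ∀ x, E x C → IsFunction E x κ κ
  closed : ∀ x, IsFunction E x κ κ → (∀ α, E α κ → ∃ y, E y C ∧ AgreeBelow E x y α) → E x C

/-- `C` is a continuous image of the space of all functions from `κ` to `κ`: there is a
continuous surjection `f` from the set `K` of all functions from `κ` to `κ` to `C`. -/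
def IsContinuousImage (κ C : M) : Prop :=
  ∃ K f, (∀ x, E x K ↔ IsFunction E x κ κ) ∧ IsFunction E f K C ∧
    (∀ y, E y C → ∃ x, Maps E f x y) ∧
    ∀ x y α, Maps E f x y → E α κ → ∃ β, E β κ ∧ ∀ x' y', Maps E f x' y' →
      AgreeBelow E x x' β → AgreeBelow E y y' α

/-- The cardinality of `X` is at most `κ ^ (< κ)`: there is an injection from `X` to a set of
functions from elements of `κ` to `κ`. -/
def AtMostKappaLessKappa (κ X : M) : Prop :=
  ∃ Q g, (∀ s, E s Q → ∃ α, E α κ ∧ IsFunction E s α κ) ∧ IsInjection E g X Q

/-- The sequence `a` is increasing (on ordinals the relation `<` is the membership relation). -/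
def IsIncreasing (a : M) : Prop := ∀ m n α β, E m n → Maps E a m α → Maps E a n β → E α β

/-- `s` is the sequence of the first `n` elements of the sequence `a` in `κ`. -/
def IsFirst (κ a n s : M) : Prop := IsFunction E s n κ ∧ Sub E s a

/-- `σ` is a winning strategy of Player II in the game `G (D, x₀, ω + 1)`.

The moves of Player I in the rounds `1, 2, ...` are the elements `a 0, a 1, ...` of an increasing
sequence `a` from `w` to `κ` (so the round `n + 1` begins with the move `a n` of Player I, and
in the round `ω` the move of Player I is forced, it is the supremum of the earlier ones).  The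
strategy `σ` gives an element of `D` for every finite sequence in `κ`; its value `x n` at the
sequence of the first `n` moves of Player I is the move of Player II in the round `n` (and `x 0`
is the given point `x₀`).  It is a winning strategy if, for all increasing `a`, the moves `x n`
obey the rules (for `m < n` the points `x m` and `x n` are different and agree below `a m`), and
there is a legal move `y` in the round `ω` (for all `m` the points `x m` and `y` are different
and agree below `a m`). -/
structure IsWinningStrategy (w κ D x₀ σ : M) : Prop where
  function : ∃ Z, IsFunction E σ Z D ∧ ∀ n s, E n w → IsFunction E s n κ → E s Z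
  start : ∀ s, (∀ z, ¬ E z s) → Maps E σ s x₀
  finite : ∀ a, IsFunction E a w κ → IsIncreasing E a → ∀ m n s s' x x' α, E m n → E n w →
    IsFirst E κ a m s → IsFirst E κ a n s' → Maps E σ s x → Maps E σ s' x' → Maps E a m α →
      x ≠ x' ∧ AgreeBelow E x x' α
  limit : ∀ a, IsFunction E a w κ → IsIncreasing E a → ∃ y, E y D ∧ ∀ m s x α, E m w →
    IsFirst E κ a m s → Maps E σ s x → Maps E a m α → x ≠ y ∧ AgreeBelow E x y α

/-- `D` is `(ω + 1)`-perfect: it is a closed set of functions from `κ` to `κ`, and for every
`x₀` in `D` Player II has a winning strategy in the game `G (D, x₀, ω + 1)`. -/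
def IsPerfectOmegaOne (w κ D : M) : Prop :=
  IsClosedSet E κ D ∧ ∀ x₀, E x₀ D → ∃ σ, IsWinningStrategy E w κ D x₀ σ

end Pool.Agent.Lib.MP_e6371f_lc
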