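import Pool.Agent.Lib.MP_e6371f_lc.Eval
import Pool.Agent.Lib.MP_e6371f_lc.Statement
import Pool.Agent.Lib.MP_1ab623_gt.Final

/-!
# The closed set as a continuous image, in a model of set theory
-/

set_option linter.unusedSectionVars false
set_option linter.unusedVariables false
set_option linter.unusedSimpArgs false

universe u

namespace Pool.Agent.Lib.MP_e6371f_lc

open Pool.Agent.ZF Pool.Agent.Lib.MP_1929a6_lc Pool.Agent.SymExt Pool.Agent.Lib.MP_1ab623_gt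

section conv

variable {M : Type u} (E : M → M → Prop)

/-- `T` has an initial segment of `x` beyond `i` -/
def Good (T x i : M) : Prop := ∃ s, E s T ∧ Sub E s x ∧ ∃ v, Maps E s i v

/-- branch -/
def Branch (κ T x : M) : Prop := IsFunction E x κ κ ∧ ∀ i, E i κ → Good E T x i

/-- empty -/
def Emp (z : M) : Prop := ∀ x, ¬ E x z

theorem emp_prop (z : M) : (propLg E).empty z ↔ Emp E z := by
  simp only [Lg.empty, prop_all, prop_neg, prop_mem]
  exact Iff.rfl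

theorem kgd_prop (hE : IsZF E) (T x i : M) : (propLg E).kgd T x i ↔ Good E T x i := by
  simp only [Lg.kgd, prop_ex, prop_and, prop_mem, sub_prop, app_prop E hE]
  exact Iff.rfl

theorem kbr_prop (hE : IsZF E) (κ T x : M) : (propLg E).kbr κ T x ↔ Branch E κ T x := by
  simp only [Lg.kbr, prop_all, prop_imp, prop_and, prop_mem, isFun_prop E hE, kgd_prop E hE]
  exact Iff.rfl

theorem kij_prop (hE : IsZF E) (f S T : M) : (propLg E).kij f S T ↔ IsInjection E f S T := by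
  simp only [Lg.kij, prop_all, prop_imp, prop_and, prop_eq,
    isFun_prop E hE, app_prop E hE, and_imp]
  exact Iff.rfl

theorem kag_prop (hE : IsZF E) (x y α : M) : (propLg E).kag x y α ↔ AgreeBelow E x y α := by
  simp only [Lg.kag, prop_all, prop_imp, prop_iff, prop_mem, app_prop E hE]
  exact Iff.rfl

theorem kinc_prop (hE : IsZF E) (a : M) : (propLg E).kinc a ↔ IsIncreasing E a := by
  simp only [Lg.kinc, prop_all, prop_imp, prop_and, prop_mem, app_prop E hE, and_imp]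
  exact Iff.rfl

theorem kpos_prop (hE : IsZF E) (κ a n s : M) : (propLg E).kpos κ a n s ↔ IsFirst E κ a n s := by
  simp only [Lg.kpos, prop_and, isFun_prop E hE, sub_prop]
  exact Iff.rfl

theorem kst_prop (hE : IsZF E) (w κ D x₀ σ : M) :
    (propLg E).kst w κ D x₀ σ ↔ IsWinningStrategy E w κ D x₀ σ := by
  simp only [Lg.kst, Lg.kst0, Lg.kst1, Lg.kst2, prop_all, prop_imp, prop_and, prop_ex, prop_mem,
    prop_neg, prop_eq, isFun_prop E hE, app_prop E hE, kinc_prop E hE, kpos_prop E hE,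
    kag_prop E hE, emp_prop, and_imp]
  exact ⟨fun h => ⟨h.1.1, h.1.2, h.2.1, h.2.2⟩, fun h => ⟨⟨h.1, h.2⟩, h.3, h.4⟩⟩

/-- the facts about the tree -/
structure Facts (w κ T : M) : Prop where
  om : IsOmega E w
  om1 : IsOmegaOne E w κ
  trs : ∀ z, E z κ → ∀ x y, E x y → E y z → E x z
  lim : ∀ i, E i κ → ∃ j, E j κ ∧ E i j
  zero : ∃ z, E z κ ∧ Emp E z
  dom : ∀ s, E s T → ∃ α, E α κ ∧ IsFunction E s α κ
  ne : ∀ s, E s T → ∀ i v, Maps E s i v → ¬ Emp E v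
  res : ∀ s, E s T → ∀ i v, Maps E s i v → ∃ s', E s' T ∧ Sub E s' s ∧
    ∃ j, (∀ z, E z j ↔ E z i ∨ z = i) ∧ IsFunction E s' j κ
  many : ∀ X, AtMostKappaLessKappa E κ X → ∃ x, Branch E κ T x ∧ ¬ E x X
  nost : ∀ D x₀ σ, (∀ x, E x D → Branch E κ T x) → E x₀ D → ¬ IsWinningStrategy E w κ D x₀ σ
  climb : ∀ i, E i κ → ∃ a, IsFunction E a w κ ∧ IsIncreasing E a ∧
    ∀ z α, Emp E z → Maps E a z α → E i α

theorem kur_prop (hE : IsZF E) (h : (propLg E).kur) : ∃ w κ T : M, Facts E w κ T := by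
  simp only [Lg.kur, Lg.om1, Lg.kun, Lg.trs, Lg.klim, Lg.ktr, Lg.kmany, Lg.knost, Lg.kcl, Lg.adj,
    prop_all, prop_imp, prop_and, prop_ex, prop_mem, prop_neg, prop_eq, prop_or, prop_iff,
    isOm_prop E hE, isFun_prop E hE, app_prop E hE, emp_prop, kbr_prop E hE, kij_prop E hE,
    kst_prop E hE, kinc_prop E hE, sub_prop] at h
  obtain ⟨w, κ, T, h1, ⟨h2, h3, h4, h5, h6⟩, ⟨h7, h8⟩, h9, h10, h11, h12⟩ := h
  refine ⟨w, κ, T, h1, ⟨?_, fun x y hx hy => h2 y x ⟨hx, hy⟩, fun x y hx hy => h4 x y ⟨hx, hy⟩,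
    h5, h6⟩, fun z hz x y hx hy => h3 z hz y x ⟨hx, hy⟩, h7, h8, fun s hs => (h9 s hs).1,
    fun s hs i v hv => ((h9 s hs).2 i v hv).1, fun s hs i v hv => ((h9 s hs).2 i v hv).2,
    ?_, ?_, fun i hi => ?_⟩
  · obtain ⟨z, hz, _⟩ := h8
    exact ⟨z, hz⟩
  · rintro X ⟨Q, g, hQ, hg⟩
    exact h10 X Q g ⟨hQ, hg⟩
  · exact fun D x₀ σ hD hx hσ => h11 D x₀ σ ⟨hD, hx, hσ⟩
  · obtain ⟨a, h13, h14, h15⟩ := h12 i hi
    exact ⟨a, h13, h14, fun z α hz hα => h15 z α ⟨hz, hα⟩⟩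

end conv

end Pool.Agent.Lib.MP_e6371f_lc
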