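import Pool.Agent.Lib.MP_e6371f_lc.Ret

/-!
# The closed set as a continuous image, in a model of set theory
-/

set_option linter.unusedSectionVars false
set_option linter.unusedVariables false
set_option linter.unusedSimpArgs false

universe u

namespace Pool.Agent.Lib.MP_e6371f_lc

open Pool.Agent.ZF Pool.Agent.Lib.MP_1929a6_lc Pool.Agent.SymExt Pool.Agent.Lib.MP_1ab623_gt

variable {M : Type} {E : M → M → Prop}

theorem pair_ext (hE : IsZF E) {p q a b : M} (h : IsPair E p a b) (h' : IsPair E q a b) :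
    p = q := hE.extensionality _ _ fun z => (h z).trans (h' z).symm

theorem exists_isPair (hE : IsZF E) (x y : M) : ∃ p, IsPair E p x y := by
  obtain ⟨u, hu⟩ := hE.pairing x x
  obtain ⟨v, hv⟩ := hE.pairing x y
  obtain ⟨p, hp⟩ := hE.pairing u v
  refine ⟨p, (isOP_prop E hE p x y).1 ?_⟩
  simp only [Lg.isOP, Lg.isPair, prop_all, prop_and, prop_ex, prop_iff, prop_or, prop_mem,
    prop_eq]
  exact ⟨u, v, hu, hv, hp⟩

theorem pair_inj (h : IsZFm E) {p x y x' y' : M} (h1 : IsPair E p x y) (h2 : IsPair E p x' y') :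
    x = x' ∧ y = y' :=
  SN.prop_OP_inj h ((isOP_prop E h.isZF p x y).2 h1) ((isOP_prop E h.isZF p x' y').2 h2)

theorem maps_mem (h : IsZFm E) {f A B i v : M} (hf : IsFunction E f A B) (hv : Maps E f i v) :
    E i A ∧ E v B := by
  obtain ⟨p, hp, hpf⟩ := hv
  obtain ⟨x, y, hx, hy, hp'⟩ := hf.1 p hpf
  obtain ⟨rfl, rfl⟩ := pair_inj h hp hp'
  exact ⟨hx, hy⟩

theorem fun_ext (h : IsZFm E) {f g A B : M} (hf : IsFunction E f A B) (hg : IsFunction E g A B)
    (hfg : ∀ i v, E i A → Maps E f i v → Maps E g i v) : f = g := by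
  have hE := h.isZF
  refine hE.extensionality _ _ fun p => ⟨fun hp => ?_, fun hp => ?_⟩
  · obtain ⟨i, v, hi, hv, hpv⟩ := hf.1 p hp
    obtain ⟨q, hq, hqg⟩ := hfg i v hi ⟨p, hpv, hp⟩
    rwa [pair_ext hE hpv hq]
  · obtain ⟨i, v, hi, hv, hpv⟩ := hg.1 p hp
    obtain ⟨v', hv', _⟩ := hf.2 i hi
    have h1 := hfg i v' hi hv'
    have h2 : v = v' := (hg.2 i hi).unique ⟨p, hpv, hp⟩ h1
    subst h2
    obtain ⟨q, hq, hqf⟩ := hv'
    rwa [pair_ext hE hpv hq]

theorem pairs (hE : IsZF E) (Y : M) : ∃ Z, ∀ p x y, E x Y → E y Y → IsPair E p x y → E p Z := by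
  obtain ⟨P1, h1⟩ := hE.power Y
  obtain ⟨P2, h2⟩ := hE.power P1
  refine ⟨P2, fun p x y hx hy hp => (h2 p).2 fun z hz => (h1 z).2 fun w hw => ?_⟩
  rcases (hp z).1 hz with h | h
  · rw [(h w).1 hw]
    exact hx
  · rcases (h w).1 hw with rfl | rfl
    · exact hx
    · exact hy

/-- assignment -/
def asg (c0 c1 c2 c3 : M) : ℕ → M :=
  Function.update (fun n => if n = 0 then c0 else if n = 1 then c1 else c2) 3 c3

theorem asg0 (c0 c1 c2 c3 : M) : asg c0 c1 c2 c3 0 = c0 := by simp [asg]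

theorem asg1 (c0 c1 c2 c3 : M) : asg c0 c1 c2 c3 1 = c1 := by simp [asg]

theorem asg2 (c0 c1 c2 c3 : M) : asg c0 c1 c2 c3 2 = c2 := by simp [asg]

theorem asg3 (c0 c1 c2 c3 : M) : asg c0 c1 c2 c3 3 = c3 := by simp [asg]

theorem sep3 (h : IsZFm E) (a : Fm) (c0 c1 c2 Y : M) :
    ∃ Z, ∀ z, E z Z ↔ E z Y ∧ (propLg E).eval a (asg c0 c1 c2 z) :=
  h.separation a (fun n => if n = 0 then c0 else if n = 1 then c1 else c2) 3 Y

/-- the set of all functions -/
theorem exists_all (h : IsZFm E) (κ : M) : ∃ K, ∀ x, E x K ↔ IsFunction E x κ κ := by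
  have hE := h.isZF
  obtain ⟨Z, hZ⟩ := pairs hE κ
  obtain ⟨P, hP⟩ := hE.power Z
  obtain ⟨K, hK⟩ := sep3 h (.isFun 3 0 0 4) κ κ κ P
  refine ⟨K, fun x => ?_⟩
  rw [hK, eval_isFun _ (by omega) (by omega) (by omega), asg0, asg3, isFun_prop E hE]
  refine ⟨fun h => h.2, fun hx => ⟨(hP x).2 fun p hp => ?_, hx⟩⟩
  obtain ⟨i, v, hi, hv, hpv⟩ := hx.1 p hp
  exact hZ p i v hi hv hpv

/-- the relation of the retraction -/
def Rel (E : M → M → Prop) (κ T x y : M) : Prop := ∀ i, E i κ →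
  (Good E T x i → ∀ v, Maps E x i v ↔ Maps E y i v) ∧
  (¬ Good E T x i → ∀ v, Maps E y i v → Emp E v)

theorem rel_prop (hE : IsZF E) (κ T x y : M) : (propLg E).krel κ T x y ↔ Rel E κ T x y := by
  simp only [Lg.krel, prop_all, prop_imp, prop_iff, prop_and, prop_neg, prop_mem,
    app_prop E hE, kgd_prop E hE, emp_prop]
  exact Iff.rfl

/-- the closed set -/
def CSet (E : M → M → Prop) (κ T x : M) : Prop := IsFunction E x κ κ ∧ ∀ i, E i κ →
  ¬ Good E T x i → ∀ v, Maps E x i v → Emp E v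

theorem cset_prop (hE : IsZF E) (κ T x : M) : (propLg E).kcs κ T x ↔ CSet E κ T x := by
  simp only [Lg.kcs, prop_all, prop_imp, prop_and, prop_neg, prop_mem, isFun_prop E hE,
    app_prop E hE, kgd_prop E hE, emp_prop]
  exact Iff.rfl

theorem exists_cset (h : IsZFm E) (κ T : M) : ∃ C, ∀ x, E x C ↔ CSet E κ T x := by
  obtain ⟨K, hK⟩ := exists_all h κ
  obtain ⟨C, hC⟩ := sep3 h (.kcs 0 1 3 4) κ T T K
  refine ⟨C, fun x => ?_⟩
  rw [hC, eval_kcs _ (by omega) (by omega) (by omega), asg0, asg1, asg3, cset_prop h.isZF, hK]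
  exact ⟨fun h => h.2, fun h => ⟨h.1, h⟩⟩

/-- the retraction as a set -/
theorem exists_graph (h : IsZFm E) (κ T : M) : ∃ f, ∀ p, E p f ↔
    ∃ x y, IsPair E p x y ∧ IsFunction E x κ κ ∧ IsFunction E y κ κ ∧ Rel E κ T x y := by
  have hE := h.isZF
  obtain ⟨K, hK⟩ := exists_all h κ
  obtain ⟨Z, hZ⟩ := pairs hE K
  obtain ⟨f, hf⟩ := sep3 h (.kgr 0 1 3 4) κ T T Z
  refine ⟨f, fun p => ?_⟩
  rw [hf, eval_kgr _ (by omega) (by omega) (by omega), asg0, asg1, asg3]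
  simp only [Lg.kgr, prop_ex, prop_and, isOP_prop E hE, isFun_prop E hE, rel_prop hE]
  refine ⟨fun h => h.2, ?_⟩
  rintro ⟨x, y, hp, hx, hy, hr⟩
  exact ⟨hZ p x y ((hK x).2 hx) ((hK y).2 hy) hp, x, y, hp, hx, hy, hr⟩

/-- values of the retraction -/
theorem exists_ret (h : IsZFm E) {κ T x : M} (h0 : ∃ z, E z κ ∧ Emp E z)
    (hx : IsFunction E x κ κ) : ∃ y, IsFunction E y κ κ ∧ Rel E κ T x y := by
  have hE := h.isZF
  obtain ⟨Z, hZ⟩ := pairs hE κ
  obtain ⟨y, hy⟩ := sep3 h (.kimp 0 1 2 3 4) κ T x Z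
  have hy' : ∀ p, E p y ↔ E p Z ∧ ∃ i v, IsPair E p i v ∧ E i κ ∧
      ((Good E T x i ∧ Maps E x i v) ∨ (¬ Good E T x i ∧ Emp E v)) := by
    intro p
    rw [hy, eval_kimp _ (by omega) (by omega) (by omega) (by omega), asg0, asg1, asg2, asg3]
    simp only [Lg.kimp, prop_ex, prop_and, prop_or, prop_neg, prop_mem, isOP_prop E hE,
      kgd_prop E hE, app_prop E hE, emp_prop]
  have val : ∀ i v, Maps E y i v ↔ E i κ ∧
      ((Good E T x i ∧ Maps E x i v) ∨ (¬ Good E T x i ∧ Emp E v)) := by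
    intro i v
    constructor
    · rintro ⟨p, hp, hpy⟩
      obtain ⟨_, i', v', hp', h1⟩ := (hy' p).1 hpy
      obtain ⟨rfl, rfl⟩ := pair_inj h hp hp'
      exact h1
    · rintro ⟨hi, h1⟩
      obtain ⟨p, hp⟩ := exists_isPair hE i v
      have hv : E v κ := by
        rcases h1 with h1 | h1
        · exact (maps_mem h hx h1.2).2
        · obtain ⟨z, hz, hz'⟩ := h0
          have : v = z := hE.extensionality _ _ fun w => iff_of_false (h1.2 w) (hz' w)
          rw [this]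
          exact hz
      exact ⟨p, hp, (hy' p).2 ⟨hZ p i v hi hv hp, i, v, hp, hi, h1⟩⟩
  refine ⟨y, ⟨fun p hp => ?_, fun i hi => ?_⟩, fun i hi => ⟨fun hg v => ?_, fun hg v hv => ?_⟩⟩
  · obtain ⟨_, i, v, hp', hi, h1⟩ := (hy' p).1 hp
    refine ⟨i, v, hi, ?_, hp'⟩
    rcases h1 with h1 | h1
    · exact (maps_mem h hx h1.2).2
    · obtain ⟨z, hz, hz'⟩ := h0
      have : v = z := hE.extensionality _ _ fun w => iff_of_false (h1.2 w) (hz' w)
      rw [this]
      exact hz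
  · by_cases hg : Good E T x i
    · obtain ⟨v, hv, hu⟩ := hx.2 i hi
      refine ⟨v, (val i v).2 ⟨hi, Or.inl ⟨hg, hv⟩⟩, fun v' hv' => ?_⟩
      rcases ((val i v').1 hv').2 with h1 | h1
      · exact hu v' h1.2
      · exact absurd hg h1.1
    · obtain ⟨z, hz, hz'⟩ := h0
      refine ⟨z, (val i z).2 ⟨hi, Or.inr ⟨hg, hz'⟩⟩, fun v' hv' => ?_⟩
      rcases ((val i v').1 hv').2 with h1 | h1
      · exact absurd h1.1 hg
      · exact hE.extensionality _ _ fun w => iff_of_false (h1.2 w) (hz' w)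
  · rw [val]
    constructor
    · exact fun h1 => ⟨hi, Or.inl ⟨hg, h1⟩⟩
    · rintro ⟨_, h1 | h1⟩
      · exact h1.2
      · exact absurd hg h1.1
  · rcases ((val i v).1 hv).2 with h1 | h1
    · exact absurd h1.1 hg
    · exact h1.2

end Pool.Agent.Lib.MP_e6371f_lc
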