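import Pool.Agent.Lib.MP_e6371f_lc.Many

/-!
# Facts about strategies
-/

set_option linter.unusedSectionVars false
set_option linter.unusedVariables false
set_option linter.unusedSimpArgs false

namespace Pool.Agent.Lib.MP_e6371f_lc

open Pool.Agent.SymExt SN

section gen

variable {P : Type} [PartialOrder P] [OrderTop P]

theorem kag_iff {x y α : VN P} {p : P} : lg.kag x y α p ↔ ∀ i v, ∀ q ≤ p, m i α q →
    (m (op i v) x q ↔ m (op i v) y q) := by
  simp only [Lg.kag, ro_all, ro_imp, ro_iff, ro_mem, app_iff]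
  exact ⟨fun h i v q hq hi => h i v q hq hi q le_rfl,
    fun h i v q hq hi r hr => h i v r (hr.trans hq) (RO.mono _ hr hi)⟩

theorem kst1_iff {w κ D σ : VN P} {p : P} : lg.kst1 w κ D σ p ↔ ∀ a, ∀ q ≤ p,
    lg.isFun a w κ q → lg.kinc a q → ∀ k n s s' x x' α, ∀ r ≤ q, m k n r → m n w r →
      lg.kpos κ a k s r → lg.kpos κ a n s' r → m (op s x) σ r → m (op s' x') σ r →
      m (op k α) a r → (∀ t ≤ r, ¬ e x x' t) ∧ lg.kag x x' α r := by
  simp only [Lg.kst1, ro_all, ro_imp, ro_and, ro_mem, ro_neg, ro_eq, app_iff, and_imp]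

theorem kst2_iff {w κ D σ : VN P} {p : P} : lg.kst2 w κ D σ p ↔ ∀ a, ∀ q ≤ p,
    lg.isFun a w κ q → lg.kinc a q → ∀ r ≤ q, ∃ t ≤ r, ∃ y, m y D t ∧ ∀ k s x α, ∀ u ≤ t,
      m k w u → lg.kpos κ a k s u → m (op s x) σ u → m (op k α) a u →
      (∀ v ≤ u, ¬ e x y v) ∧ lg.kag x y α u := by
  simp only [Lg.kst2, ro_all, ro_imp, ro_and, ro_ex, ro_mem, ro_neg, ro_eq, app_iff, and_imp]

theorem kst0_iff {w κ D x0 σ : VN P} {p : P} : lg.kst0 w κ D x0 σ p ↔
    (∀ q ≤ p, ∃ r ≤ q, ∃ Z, lg.isFun σ Z D r ∧ ∀ n s, ∀ t ≤ r, m n w t → lg.isFun s n κ t →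
      m s Z t) ∧ ∀ s, ∀ q ≤ p, lg.empty s q → m (op s x0) σ q := by
  simp only [Lg.kst0, ro_all, ro_imp, ro_and, ro_ex, ro_mem, app_iff, and_imp]

/-- different functions have different values -/
theorem fun_ne {y y' : VN P} {p : P} (hy : lg.isFun y (kp P) (kp P) p)
    (hy' : lg.isFun y' (kp P) (kp P) p) (h : ¬ e y y' p) :
    ∃ q ≤ p, ∃ c u u' : W, m (op (ow c) (ow u)) y q ∧ m (op (ow c) (ow u')) y' q ∧ u ≠ u' := by
  by_contra hc
  push Not at hc
  have key : ∀ {f f' : VN P}, lg.isFun f (kp P) (kp P) p → lg.isFun f' (kp P) (kp P) p →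
      (∀ q ≤ p, ∀ c u u' : W, m (op (ow c) (ow u)) f q → m (op (ow c) (ow u')) f' q → u = u') →
      ∀ q ≤ p, ∀ z, m z f q → m z f' q := by
    intro f f' hf hf' h q hq z hz
    refine RO.dense _ fun r hr => ?_
    obtain ⟨s, hs, x, v, hx, hv, he⟩ := (isFun_iff.1 hf).1 z q hq hz r hr
    obtain ⟨t, ht, c, hxc⟩ := m_kp.1 hx s le_rfl
    obtain ⟨t1, ht1, u, hvu⟩ := m_kp.1 hv t ht
    have h1q : t1 ≤ q := ht1.trans (ht.trans (hs.trans hr))
    have hz' : e z (op (ow c) (ow u)) t1 :=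
      e_trans (RO.mono _ (ht1.trans ht) he) (op_congr (RO.mono _ ht1 hxc) hvu)
    have h2 : m (op (ow c) (ow u)) f t1 := m_left hz' (RO.mono _ h1q hz)
    obtain ⟨t2, ht2, v', hv'⟩ := (isFun_iff.1 hf').2.1 (ow c) t1 (h1q.trans hq) (m_ow_kp _ _)
      t1 le_rfl
    obtain ⟨t3, ht3, x1, y1, _, hy1, he1⟩ := (isFun_iff.1 hf').1 _ t2
      (ht2.trans (h1q.trans hq)) hv' t2 le_rfl
    obtain ⟨_, he2⟩ := op_inj he1
    obtain ⟨t4, ht4, u', hu'⟩ := m_kp.1 hy1 t3 le_rfl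
    have h41 : t4 ≤ t1 := ht4.trans (ht3.trans ht2)
    have h5 : m (op (ow c) (ow u')) f' t4 := m_left (op_congr (e_refl _ _)
      (e_trans (RO.mono _ ht4 he2) hu')) (RO.mono _ (ht4.trans ht3) hv')
    have h6 := h t4 (h41.trans (h1q.trans hq)) c u u' (RO.mono _ h41 h2) h5
    subst h6
    exact ⟨t4, h41.trans (ht1.trans (ht.trans hs)), m_left (e_symm (RO.mono _ h41 hz')) h5⟩
  refine h (e_ext fun q hq z => ⟨key hy hy' hc q hq z, key hy' hy (fun q hq c u u' h1 h2 => ?_)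
    q hq z⟩)
  exact (hc q hq c u' u h2 h1).symm

end gen

/-- extension of a finite sequence -/
noncomputable def bb (n : ℕ) (b : ℕ → W) (α : W) (i : ℕ) : W :=
  if i < n then b i else nxn (i - n) α

theorem bb_lt {n : ℕ} {b : ℕ → W} {α : W} {i : ℕ} (h : i < n) : bb n b α i = b i := if_pos h

theorem bb_self {n : ℕ} {b : ℕ → W} {α : W} : bb n b α n = α := by
  unfold bb
  rw [if_neg (lt_irrefl _), Nat.sub_self]
  rfl

theorem bb_mono {n : ℕ} {b : ℕ → W} {α : W} (hb : ∀ i j, i < j → j < n → b i < b j)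
    (hα : ∀ i < n, b i < α) (i j : ℕ) (hij : i < j) : bb n b α i < bb n b α j := by
  unfold bb
  by_cases hj : j < n
  · rw [if_pos (hij.trans hj), if_pos hj]
    exact hb i j hij hj
  · rw [if_neg hj]
    by_cases hi : i < n
    · rw [if_pos hi]
      exact (hα i hi).trans_le (le_nxn _ _)
    · rw [if_neg hi]
      exact nxn_lt (by omega) α

end Pool.Agent.Lib.MP_e6371f_lc
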